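import Mathlib

/-!
Auxiliary lemmas on order automorphisms of `ℝ` and signs of functions.
-/

set_option autoImplicit false

open Set

namespace Pool.Agent.Lib.MP_ec0437_lc

/-- the map which is the identity left of `c` and has slope `k` right of `c`. -/
noncomputable def kink (c k : ℝ) (y : ℝ) : ℝ := if y ≤ c then y else c + k * (y - c)

theorem kink_strictMono (c k : ℝ) (hk : 0 < k) : StrictMono (kink c k) := by
  intro a b hab
  unfold kink
  split_ifs with h1 h2 h2
  · exact hab
  · push Not at h2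
    have : 0 < k * (b - c) := mul_pos hk (by linarith)
    linarith
  · exfalso; linarith
  · have : k * (a - c) < k * (b - c) := by
      apply mul_lt_mul_of_pos_left _ hk
      linarith
    linarith

theorem kink_surjective (c k : ℝ) (hk : 0 < k) : Function.Surjective (kink c k) := by
  intro z
  by_cases hz : z ≤ c
  · exact ⟨z, by simp [kink, hz]⟩
  · push Not at hz
    refine ⟨c + (z - c) / k, ?_⟩
    have h1 : 0 < (z - c) / k := div_pos (by linarith) hk
    have h2 : ¬ (c + (z - c) / k ≤ c) := by linarith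
    simp only [kink, h2, if_false]
    field_simp
    ring

noncomputable def kinkIso (c k : ℝ) (hk : 0 < k) : ℝ ≃o ℝ :=
  (kink_strictMono c k hk).orderIsoOfSurjective _ (kink_surjective c k hk)

theorem kinkIso_apply (c k : ℝ) (hk : 0 < k) (y : ℝ) : kinkIso c k hk y = kink c k y := rfl

theorem kinkIso_of_le (c k : ℝ) (hk : 0 < k) {y : ℝ} (hy : y ≤ c) : kinkIso c k hk y = y := by
  rw [kinkIso_apply]; simp [kink, hy]

theorem kinkIso_of_ge (c k : ℝ) (hk : 0 < k) {y : ℝ} (hy : c ≤ y) :
    kinkIso c k hk y = c + k * (y - c) := by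
  rw [kinkIso_apply]
  rcases hy.eq_or_lt with h | h
  · subst h; simp [kink]
  · simp [kink, not_le.2 h]

/-- An order automorphism of `ℝ` moving `a` to `b` and fixing everything outside `(p, q)`. -/
theorem exists_orderIso_move {p q a b : ℝ} (hpa : p < a) (haq : a < q) (hpb : p < b) (hbq : b < q) :
    ∃ ψ : ℝ ≃o ℝ, (∀ y, y ≤ p → ψ y = y) ∧ (∀ y, q ≤ y → ψ y = y) ∧ ψ a = b := by
  have hk : 0 < (b - p) / (a - p) := div_pos (by linarith) (by linarith)
  set k := (b - p) / (a - p) with hkdef
  set q' := p + k * (q - p) with hq'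
  have hkap : k * (a - p) = b - p := by
    rw [hkdef]; field_simp [(by linarith : a - p ≠ 0)]
  have hbq' : b < q' := by
    have : k * (a - p) < k * (q - p) := mul_lt_mul_of_pos_left (by linarith) hk
    rw [hq']; linarith
  have hk' : 0 < (q - b) / (q' - b) := div_pos (by linarith) (by linarith)
  set k' := (q - b) / (q' - b) with hk'def
  have hk'q : k' * (q' - b) = q - b := by
    rw [hk'def]; field_simp [(by linarith : q' - b ≠ 0)]
  have hk'' : 0 < 1 / (k * k') := by positivity
  refine ⟨((kinkIso p k hk).trans (kinkIso b k' hk')).trans (kinkIso q (1 / (k * k')) hk''),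
    ?_, ?_, ?_⟩
  · intro y hy
    simp only [OrderIso.trans_apply]
    rw [kinkIso_of_le _ _ _ hy, kinkIso_of_le b _ _ (by linarith), kinkIso_of_le q _ _ (by linarith)]
  · intro y hy
    simp only [OrderIso.trans_apply]
    rw [kinkIso_of_ge p k hk (by linarith)]
    have h1 : q' ≤ p + k * (y - p) := by
      have : k * (q - p) ≤ k * (y - p) := mul_le_mul_of_nonneg_left (by linarith) hk.le
      rw [hq']; linarith
    rw [kinkIso_of_ge b k' hk' (by linarith)]
    have h2 : q ≤ b + k' * (p + k * (y - p) - b) := by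
      have : k' * (q' - b) ≤ k' * (p + k * (y - p) - b) :=
        mul_le_mul_of_nonneg_left (by linarith) hk'.le
      linarith
    rw [kinkIso_of_ge q _ hk'' h2]
    have h3 : b + k' * (p + k * (y - p) - b) - q = (k * k') * (y - q) := by
      have : k' * (p + k * (y - p) - b) = k' * (q' - b) + k' * (k * (y - q)) := by
        rw [hq']; ring
      rw [this, hk'q]; ring
    rw [h3, one_div, inv_mul_cancel_left₀ (by positivity)]
    ring
  · simp only [OrderIso.trans_apply]
    rw [kinkIso_of_ge p k hk hpa.le]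
    have : p + k * (a - p) = b := by linarith
    rw [this, kinkIso_of_le _ _ _ le_rfl, kinkIso_of_le _ _ _ hbq.le]

/-- If `f` is continuous without zeros on `uIcc a b`, the signs at the end points agree. -/
theorem sign_eq_of_no_zero {f : ℝ → ℝ} (hf : Continuous f) {a b : ℝ}
    (h0 : ∀ y ∈ uIcc a b, f y ≠ 0) : SignType.sign (f a) = SignType.sign (f b) := by
  have key : ∀ a b : ℝ, (∀ y ∈ uIcc a b, f y ≠ 0) → 0 < f a → 0 < f b := by
    intro a b h0 ha
    by_contra hb
    push Not at hb
    have : (0 : ℝ) ∈ f '' uIcc a b := by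
      apply intermediate_value_uIcc hf.continuousOn
      rw [uIcc_of_ge (hb.trans ha.le)]
      exact ⟨hb, ha.le⟩
    obtain ⟨y, hy, hy0⟩ := this
    exact h0 y hy hy0
  have key2 : ∀ a b : ℝ, (∀ y ∈ uIcc a b, f y ≠ 0) → f a < 0 → f b < 0 := by
    intro a b h0 ha
    by_contra hb
    push Not at hb
    have : (0 : ℝ) ∈ f '' uIcc a b := by
      apply intermediate_value_uIcc hf.continuousOn
      rw [uIcc_of_le (ha.le.trans hb)]
      exact ⟨ha.le, hb⟩
    obtain ⟨y, hy, hy0⟩ := this
    exact h0 y hy hy0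
  rcases lt_trichotomy (f a) 0 with h | h | h
  · rw [sign_neg h, sign_neg (key2 a b h0 h)]
  · exact absurd h (h0 a left_mem_uIcc)
  · rw [sign_pos h, sign_pos (key a b h0 h)]

/-- Interval lemma, increasing case. -/
theorem interval_mono {p q : ℝ} (hpq : p < q) {g G : ℝ → ℝ} (hg : Continuous g) (hG : Continuous G)
    (hgm : StrictMonoOn g (Icc p q)) (hGm : StrictMonoOn G (Icc p q))
    (hp : SignType.sign (g p) = SignType.sign (G p))
    (hq : SignType.sign (g q) = SignType.sign (G q)) :
    ∃ ψ : ℝ ≃o ℝ, (∀ y, y ≤ p → ψ y = y) ∧ (∀ y, q ≤ y → ψ y = y) ∧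
      ∀ y ∈ Icc p q, SignType.sign (g y) = SignType.sign (G (ψ y)) := by
  have hpm : p ∈ Icc p q := left_mem_Icc.2 hpq.le
  have hqm : q ∈ Icc p q := right_mem_Icc.2 hpq.le
  by_cases hgp : 0 ≤ g p
  · have hGp : 0 ≤ G p := by
      rcases hgp.eq_or_lt with h | h
      · rw [← h, sign_zero] at hp
        rw [sign_eq_zero_iff.1 hp.symm]
      · rw [sign_pos h] at hp
        exact (sign_eq_one_iff.1 hp.symm).le
    refine ⟨OrderIso.refl ℝ, fun _ _ => rfl, fun _ _ => rfl, fun y hy => ?_⟩
    rcases hy.1.eq_or_lt with h | h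
    · rw [← h]; exact hp
    · have h1 := hgm hpm hy h
      have h2 := hGm hpm hy h
      rw [sign_pos (hgp.trans_lt h1)]
      exact (sign_pos (hGp.trans_lt h2)).symm
  · push Not at hgp
    have hGp : G p < 0 := by
      rw [sign_neg hgp] at hp
      exact sign_eq_neg_one_iff.1 hp.symm
    by_cases hgq : g q ≤ 0
    · have hGq : G q ≤ 0 := by
        rcases hgq.eq_or_lt with h | h
        · rw [h, sign_zero] at hq
          rw [sign_eq_zero_iff.1 hq.symm]
        · rw [sign_neg h] at hq
          exact (sign_eq_neg_one_iff.1 hq.symm).le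
      refine ⟨OrderIso.refl ℝ, fun _ _ => rfl, fun _ _ => rfl, fun y hy => ?_⟩
      rcases hy.2.eq_or_lt with h | h
      · rw [h]; exact hq
      · have h1 := hgm hy hqm h
        have h2 := hGm hy hqm h
        rw [sign_neg (h1.trans_le hgq)]
        exact (sign_neg (h2.trans_le hGq)).symm
    · push Not at hgq
      have hGq : 0 < G q := by
        rw [sign_pos hgq] at hq
        exact sign_eq_one_iff.1 hq.symm
      obtain ⟨a, ha, ha0⟩ : (0 : ℝ) ∈ g '' Icc p q :=
        intermediate_value_Icc hpq.le hg.continuousOn ⟨hgp.le, hgq.le⟩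
      obtain ⟨b, hb, hb0⟩ : (0 : ℝ) ∈ G '' Icc p q :=
        intermediate_value_Icc hpq.le hG.continuousOn ⟨hGp.le, hGq.le⟩
      have hpa : p < a := lt_of_le_of_ne ha.1 (by rintro rfl; linarith)
      have haq : a < q := lt_of_le_of_ne ha.2 (by rintro rfl; linarith)
      have hpb : p < b := lt_of_le_of_ne hb.1 (by rintro rfl; linarith)
      have hbq : b < q := lt_of_le_of_ne hb.2 (by rintro rfl; linarith)
      obtain ⟨ψ, h1, h2, h3⟩ := exists_orderIso_move hpa haq hpb hbq
      refine ⟨ψ, h1, h2, fun y hy => ?_⟩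
      have hψy : ψ y ∈ Icc p q := by
        constructor
        · rw [← h1 p le_rfl]; exact ψ.monotone hy.1
        · rw [← h2 q le_rfl]; exact ψ.monotone hy.2
      rcases lt_trichotomy y a with h | h | h
      · have h4 := hgm hy ha h
        have h5 := hGm hψy hb (by rw [← h3]; exact ψ.strictMono h)
        rw [sign_neg (by linarith), sign_neg (by linarith)]
      · rw [h, h3, ha0, hb0]
      · have h4 := hgm ha hy h
        have h5 := hGm hb hψy (by rw [← h3]; exact ψ.strictMono h)
        rw [sign_pos (by linarith), sign_pos (by linarith)]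

theorem interval_lemma {p q : ℝ} (hpq : p < q) {g G : ℝ → ℝ} (hg : Continuous g)
    (hG : Continuous G)
    (hm : (StrictMonoOn g (Icc p q) ∧ StrictMonoOn G (Icc p q)) ∨
      (StrictAntiOn g (Icc p q) ∧ StrictAntiOn G (Icc p q)))
    (hp : SignType.sign (g p) = SignType.sign (G p))
    (hq : SignType.sign (g q) = SignType.sign (G q)) :
    ∃ ψ : ℝ ≃o ℝ, (∀ y, y ≤ p → ψ y = y) ∧ (∀ y, q ≤ y → ψ y = y) ∧
      ∀ y ∈ Icc p q, SignType.sign (g y) = SignType.sign (G (ψ y)) := by
  rcases hm with ⟨h1, h2⟩ | ⟨h1, h2⟩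
  · exact interval_mono hpq hg hG h1 h2 hp hq
  · obtain ⟨ψ, h3, h4, h5⟩ := interval_mono (g := fun y => - g y) (G := fun y => - G y) hpq
      hg.neg hG.neg (fun a ha b hb hab => neg_lt_neg (h1 ha hb hab))
      (fun a ha b hb hab => neg_lt_neg (h2 ha hb hab))
      (by rw [Left.sign_neg, Left.sign_neg, hp]) (by rw [Left.sign_neg, Left.sign_neg, hq])
    refine ⟨ψ, h3, h4, fun y hy => ?_⟩
    have := h5 y hy
    rw [Left.sign_neg, Left.sign_neg] at this
    exact neg_injective this

/-- Gluing the automorphisms obtained on consecutive intervals. -/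
theorem glue {g G : ℝ → ℝ} (Z : Finset ℝ)
    (h1 : ∀ z ∈ Z, SignType.sign (g z) = SignType.sign (G z))
    (h2 : ∀ p ∈ Z, ∀ q ∈ Z, p < q → (∀ z ∈ Z, z ≤ p ∨ q ≤ z) →
      ∃ ψ : ℝ ≃o ℝ, (∀ y, y ≤ p → ψ y = y) ∧ (∀ y, q ≤ y → ψ y = y) ∧
      ∀ y ∈ Icc p q, SignType.sign (g y) = SignType.sign (G (ψ y))) :
    ∃ ψ : ℝ ≃o ℝ, (∀ z ∈ Z, ψ z = z) ∧ (∀ y, (∀ z ∈ Z, z ≤ y) → ψ y = y) ∧
      (∀ y, (∀ z ∈ Z, y ≤ z) → ψ y = y) ∧
      ∀ y, (∃ z ∈ Z, z ≤ y) → (∃ z ∈ Z, y ≤ z) →
        SignType.sign (g y) = SignType.sign (G (ψ y)) := by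
  classical
  induction Z using Finset.induction_on_max with
  | empty =>
    refine ⟨OrderIso.refl ℝ, by simp, fun _ _ => rfl, fun _ _ => rfl, ?_⟩
    rintro y ⟨z, hz, _⟩
    simp at hz
  | insert c s hc ih =>
    obtain ⟨ψ, hψ1, hψ2, hψ3, hψ4⟩ := ih (fun z hz => h1 z (Finset.mem_insert_of_mem hz)) (by
      intro p hp q hq hpq hz
      apply h2 p (Finset.mem_insert_of_mem hp) q (Finset.mem_insert_of_mem hq) hpq
      intro z hzm
      rcases Finset.mem_insert.1 hzm with rfl | hzs
      · right; exact (hc q hq).le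
      · exact hz z hzs)
    rcases s.eq_empty_or_nonempty with hs | hs
    · subst hs
      refine ⟨OrderIso.refl ℝ, fun _ _ => rfl, fun _ _ => rfl, fun _ _ => rfl, ?_⟩
      rintro y ⟨z, hz, hzy⟩ ⟨z', hz', hzy'⟩
      simp only [Finset.mem_insert, Finset.notMem_empty, or_false] at hz hz'
      subst hz; subst hz'
      have : y = z' := le_antisymm hzy' hzy
      subst this
      exact h1 _ (Finset.mem_insert_self _ _)
    · set m := s.max' hs with hm
      have hms : m ∈ s := s.max'_mem hs
      have hmc : m < c := hc m hms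
      obtain ⟨χ, hχ1, hχ2, hχ3⟩ := h2 m (Finset.mem_insert_of_mem hms) c
        (Finset.mem_insert_self _ _) hmc (by
          intro z hz
          rcases Finset.mem_insert.1 hz with rfl | hzs
          · right; exact le_rfl
          · left; exact s.le_max' z hzs)
      refine ⟨χ.trans ψ, ?_, ?_, ?_, ?_⟩
      · intro z hz
        rw [OrderIso.trans_apply]
        rcases Finset.mem_insert.1 hz with rfl | hzs
        · rw [hχ2 _ le_rfl]
          exact hψ2 _ (fun z' hz' => (hc z' hz').le)
        · rw [hχ1 z (s.le_max' z hzs)]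
          exact hψ1 z hzs
      · intro y hy
        rw [OrderIso.trans_apply]
        rw [hχ2 y (hy c (Finset.mem_insert_self _ _))]
        exact hψ2 y (fun z hz => hy z (Finset.mem_insert_of_mem hz))
      · intro y hy
        rw [OrderIso.trans_apply]
        rw [hχ1 y (hy m (Finset.mem_insert_of_mem hms))]
        exact hψ3 y (fun z hz => hy z (Finset.mem_insert_of_mem hz))
      · rintro y ⟨z, hz, hzy⟩ ⟨z', hz', hzy'⟩
        rw [OrderIso.trans_apply]
        rcases le_or_gt y m with hym | hym
        · rw [hχ1 y hym]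
          have hzs : z ∈ s := by
            rcases Finset.mem_insert.1 hz with rfl | hzs
            · exfalso; linarith
            · exact hzs
          exact hψ4 y ⟨z, hzs, hzy⟩ ⟨m, hms, hym⟩
        · have hyc : y ≤ c := by
            rcases Finset.mem_insert.1 hz' with rfl | hzs
            · exact hzy'
            · exact hzy'.trans (hc z' hzs).le
          rw [hχ3 y ⟨hym.le, hyc⟩]
          congr 2
          symm
          apply hψ2
          intro z hz
          refine (s.le_max' z hz).trans ?_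
          rw [← hm, ← hχ1 m le_rfl]
          exact χ.monotone hym.le

end Pool.Agent.Lib.MP_ec0437_lc
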