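import Mathlib
import Pool.Agent.Lib.MP_ec0437_lc.OrderIsoAux

/-!
The analytic step of the Cohen–Hörmander elimination.
-/

set_option autoImplicit false

open Set Polynomial Filter

namespace Pool.Agent.Lib.MP_ec0437_lc

theorem sign_eval_atTop (P : ℝ[X]) (hP : 0 < P.natDegree) :
    ∃ N : ℝ, ∀ y, N ≤ y → SignType.sign (P.eval y) = SignType.sign P.leadingCoeff := by
  have hdeg : 0 < P.degree := natDegree_pos_iff_degree_pos.1 hP
  have hne : P.leadingCoeff ≠ 0 := by
    rw [Ne, leadingCoeff_eq_zero]
    rintro rfl
    simp at hP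
  rcases lt_or_gt_of_ne hne with h | h
  · have ht := P.tendsto_atBot_of_leadingCoeff_nonpos hdeg h.le
    obtain ⟨N, hN⟩ := (eventually_atTop.1 (ht.eventually (eventually_lt_atBot 0)))
    exact ⟨N, fun y hy => by rw [sign_neg (hN y hy), sign_neg h]⟩
  · have ht := P.tendsto_atTop_of_leadingCoeff_nonneg hdeg h.le
    obtain ⟨N, hN⟩ := (eventually_atTop.1 (ht.eventually (eventually_gt_atTop 0)))
    exact ⟨N, fun y hy => by rw [sign_pos (hN y hy), sign_pos h]⟩

theorem sign_eval_atBot (P : ℝ[X]) (hP : 0 < P.natDegree) :
    ∃ N : ℝ, ∀ y, y ≤ N → SignType.sign (P.eval y) =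
      SignType.sign (P.leadingCoeff * (-1) ^ P.natDegree) := by
  have h1 : (-X : ℝ[X]).natDegree = 1 := by simp
  have hnat : (P.comp (-X)).natDegree = P.natDegree := by
    rw [natDegree_comp, h1, mul_one]
  have hlc : (P.comp (-X)).leadingCoeff = P.leadingCoeff * (-1) ^ P.natDegree := by
    rw [leadingCoeff_comp (by rw [h1]; norm_num), leadingCoeff_neg, leadingCoeff_X]
  obtain ⟨N, hN⟩ := sign_eval_atTop (P.comp (-X)) (by rw [hnat]; exact hP)
  refine ⟨-N, fun y hy => ?_⟩
  have := hN (-y) (by linarith)
  rw [hlc, eval_comp] at this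
  simpa using this

/-- The analytic step. -/
theorem step_lemma {I : Type*} (s : Finset I) (q q' : I → ℝ[X]) (φ : ℝ ≃o ℝ)
    (hs : ∀ i ∈ s, ∀ y, SignType.sign ((q i).eval y) = SignType.sign ((q' i).eval (φ y)))
    (h h' : ℝ[X]) (hd : h.natDegree = h'.natDegree) (hd1 : 0 < h.natDegree)
    (hlc : SignType.sign h.leadingCoeff = SignType.sign h'.leadingCoeff)
    (i₀ : I) (hi₀ : i₀ ∈ s) (hq₀ : q i₀ = derivative h) (hq₀' : q' i₀ = derivative h')
    (hroot : ∀ i ∈ s, q i ≠ 0 → ∀ y, (q i).eval y = 0 →
      SignType.sign (h.eval y) = SignType.sign (h'.eval (φ y))) :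
    ∃ φ' : ℝ ≃o ℝ,
      (∀ i ∈ s, ∀ y, SignType.sign ((q i).eval y) = SignType.sign ((q' i).eval (φ' y))) ∧
      ∀ y, SignType.sign (h.eval y) = SignType.sign (h'.eval (φ' y)) := by
  classical
  have hd1' : 0 < h'.natDegree := hd ▸ hd1
  -- signs at infinity
  obtain ⟨N1, hN1⟩ := sign_eval_atTop h hd1
  obtain ⟨N2, hN2⟩ := sign_eval_atTop h' hd1'
  obtain ⟨M1, hM1⟩ := sign_eval_atBot h hd1
  obtain ⟨M2, hM2⟩ := sign_eval_atBot h' hd1'
  -- the finite set of roots
  set Z : Finset ℝ := s.biUnion (fun i => (q i).roots.toFinset) with hZ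
  have hZmem : ∀ i ∈ s, q i ≠ 0 → ∀ y, (q i).eval y = 0 → y ∈ Z := by
    intro i hi hqi y hy
    rw [hZ, Finset.mem_biUnion]
    exact ⟨i, hi, by rw [Multiset.mem_toFinset, mem_roots hqi]; exact hy⟩
  have hZsign : ∀ y ∈ Z, SignType.sign (h.eval y) = SignType.sign (h'.eval (φ y)) := by
    intro y hy
    rw [hZ, Finset.mem_biUnion] at hy
    obtain ⟨i, hi, hy⟩ := hy
    rw [Multiset.mem_toFinset, mem_roots'] at hy
    exact hroot i hi hy.1 y hy.2
  -- choose a < b enclosing everything
  obtain ⟨b, hb1, hb2, hb3⟩ : ∃ b : ℝ, N1 ≤ b ∧ φ.symm N2 ≤ b ∧ ∀ z ∈ Z, z < b := by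
    obtain ⟨B, hB⟩ := Z.exists_le
    refine ⟨max (max N1 (φ.symm N2)) (B + 1), ?_, ?_, ?_⟩
    · exact (le_max_left _ _).trans (le_max_left _ _)
    · exact (le_max_right _ _).trans (le_max_left _ _)
    · intro z hz
      have := hB z hz
      exact lt_of_lt_of_le (by linarith) (le_max_right _ _)
  obtain ⟨a, ha1, ha2, ha3, hab⟩ : ∃ a : ℝ, a ≤ M1 ∧ a ≤ φ.symm M2 ∧ (∀ z ∈ Z, a < z) ∧ a < b := by
    obtain ⟨A, hA⟩ := Z.bddBelow
    refine ⟨min (min (min M1 (φ.symm M2)) (A - 1)) (b - 1), ?_, ?_, ?_, ?_⟩
    · exact ((min_le_left _ _).trans (min_le_left _ _)).trans (min_le_left _ _)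
    · exact ((min_le_left _ _).trans (min_le_left _ _)).trans (min_le_right _ _)
    · intro z hz
      have := hA (Finset.mem_coe.2 hz)
      exact lt_of_le_of_lt ((min_le_left _ _).trans (min_le_right _ _)) (by linarith)
    · exact lt_of_le_of_lt (min_le_right _ _) (by linarith)
  have hge : ∀ y, b ≤ y → SignType.sign (h.eval y) = SignType.sign (h'.eval (φ y)) := by
    intro y hy
    rw [hN1 y (hb1.trans hy), hN2 (φ y) (by
      have := φ.monotone (hb2.trans hy)
      rwa [OrderIso.apply_symm_apply] at this), hlc]
  have hle : ∀ y, y ≤ a → SignType.sign (h.eval y) = SignType.sign (h'.eval (φ y)) := by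
    intro y hy
    rw [hM1 y (hy.trans ha1), hM2 (φ y) (by
      have := φ.monotone (hy.trans ha2)
      rwa [OrderIso.apply_symm_apply] at this), sign_mul, sign_mul, hlc, hd]
  -- the enlarged finite set
  set Z' : Finset ℝ := insert a (insert b Z) with hZ'
  have hder : derivative h ≠ 0 := by
    intro h0
    have := derivative_eq_zero.1 h0
    omega
  have hder' : derivative h' ≠ 0 := by
    intro h0
    have := derivative_eq_zero.1 h0
    omega
  have key := glue (g := fun y => h.eval y) (G := fun y => h'.eval (φ y)) Z' (by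
      intro z hz
      rw [hZ', Finset.mem_insert, Finset.mem_insert] at hz
      rcases hz with rfl | rfl | hz
      · exact hle _ le_rfl
      · exact hge _ le_rfl
      · exact hZsign z hz) (by
      intro p hp r hr hpr hcons
      have hsp : ∀ z ∈ Z', SignType.sign (h.eval z) = SignType.sign (h'.eval (φ z)) := by
        intro z hz
        rw [hZ', Finset.mem_insert, Finset.mem_insert] at hz
        rcases hz with rfl | rfl | hz
        · exact hle _ le_rfl
        · exact hge _ le_rfl
        · exact hZsign z hz
      -- the derivative has no zero inside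
      have hnz : ∀ y ∈ Ioo p r, (derivative h).eval y ≠ 0 := by
        intro y hy h0
        have hyZ : y ∈ Z := hZmem i₀ hi₀ (hq₀ ▸ hder) y (by rw [hq₀]; exact h0)
        rcases hcons y (Finset.mem_insert_of_mem (Finset.mem_insert_of_mem hyZ)) with h1 | h1
        · exact absurd h1 (not_le.2 hy.1)
        · exact absurd h1 (not_le.2 hy.2)
      have hsd : ∀ y, SignType.sign ((derivative h).eval y) =
          SignType.sign ((derivative h').eval (φ y)) := by
        intro y
        have := hs i₀ hi₀ y
        rwa [hq₀, hq₀'] at this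
      set mid := (p + r) / 2 with hmid
      have hmidm : mid ∈ Ioo p r := ⟨by rw [hmid]; linarith, by rw [hmid]; linarith⟩
      have hconst : ∀ y ∈ Ioo p r, SignType.sign ((derivative h).eval y) =
          SignType.sign ((derivative h).eval mid) := by
        intro y hy
        apply sign_eq_of_no_zero (derivative h).continuous
        intro w hw
        apply hnz w
        have := (ordConnected_Ioo (a := p) (b := r)).uIcc_subset hy hmidm hw
        exact this
      apply interval_lemma hpr h.continuous (h'.continuous.comp φ.continuous) _ (hsp p hp) (hsp r hr)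
      rcases lt_or_gt_of_ne (hnz mid hmidm) with hneg | hpos
      · right
        constructor
        · apply strictAntiOn_of_deriv_neg (convex_Icc p r) h.continuous.continuousOn
          intro y hy
          rw [interior_Icc] at hy
          rw [Polynomial.deriv]
          have := hconst y hy
          rw [sign_neg hneg] at this
          exact sign_eq_neg_one_iff.1 this
        · have hanti : StrictAntiOn (fun y => h'.eval y) (Icc (φ p) (φ r)) := by
            apply strictAntiOn_of_deriv_neg (convex_Icc _ _) h'.continuous.continuousOn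
            intro y hy
            rw [interior_Icc] at hy
            rw [Polynomial.deriv]
            have hy' : φ.symm y ∈ Ioo p r := by
              constructor
              · rw [← φ.symm_apply_apply p]; exact φ.symm.strictMono hy.1
              · rw [← φ.symm_apply_apply r]; exact φ.symm.strictMono hy.2
            have h1 := hconst _ hy'
            rw [sign_neg hneg, hsd, OrderIso.apply_symm_apply] at h1
            exact sign_eq_neg_one_iff.1 h1
          intro u hu v hv huv
          exact hanti ⟨φ.monotone hu.1, φ.monotone hu.2⟩ ⟨φ.monotone hv.1, φ.monotone hv.2⟩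
            (φ.strictMono huv)
      · left
        constructor
        · apply strictMonoOn_of_deriv_pos (convex_Icc p r) h.continuous.continuousOn
          intro y hy
          rw [interior_Icc] at hy
          rw [Polynomial.deriv]
          have := hconst y hy
          rw [sign_pos hpos] at this
          exact sign_eq_one_iff.1 this
        · have hmono : StrictMonoOn (fun y => h'.eval y) (Icc (φ p) (φ r)) := by
            apply strictMonoOn_of_deriv_pos (convex_Icc _ _) h'.continuous.continuousOn
            intro y hy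
            rw [interior_Icc] at hy
            rw [Polynomial.deriv]
            have hy' : φ.symm y ∈ Ioo p r := by
              constructor
              · rw [← φ.symm_apply_apply p]; exact φ.symm.strictMono hy.1
              · rw [← φ.symm_apply_apply r]; exact φ.symm.strictMono hy.2
            have h1 := hconst _ hy'
            rw [sign_pos hpos, hsd, OrderIso.apply_symm_apply] at h1
            exact sign_eq_one_iff.1 h1
          intro u hu v hv huv
          exact hmono ⟨φ.monotone hu.1, φ.monotone hu.2⟩ ⟨φ.monotone hv.1, φ.monotone hv.2⟩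
            (φ.strictMono huv))
  obtain ⟨ψ, hψ1, hψ2, hψ3, hψ4⟩ := key
  have haZ' : a ∈ Z' := Finset.mem_insert_self _ _
  have hbZ' : b ∈ Z' := Finset.mem_insert_of_mem (Finset.mem_insert_self _ _)
  refine ⟨ψ.trans φ, ?_, ?_⟩
  · intro i hi y
    rw [OrderIso.trans_apply, ← hs i hi (ψ y)]
    by_cases hyZ : y ∈ Z'
    · rw [hψ1 y hyZ]
    · by_cases hq0 : q i = 0
      · simp [hq0]
      · apply sign_eq_of_no_zero (q i).continuous
        intro w hw h0
        have hwZ : w ∈ Z' :=
          Finset.mem_insert_of_mem (Finset.mem_insert_of_mem (hZmem i hi hq0 w h0))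
        have hψw := hψ1 w hwZ
        rcases lt_trichotomy y w with hlt | heq | hgt
        · have h1 : ψ y < w := by rw [← hψw]; exact ψ.strictMono hlt
          rcases Set.mem_uIcc.1 hw with h2 | h2
          · linarith [h2.2]
          · linarith [h2.2]
        · exact hyZ (heq ▸ hwZ)
        · have h1 : w < ψ y := by rw [← hψw]; exact ψ.strictMono hgt
          rcases Set.mem_uIcc.1 hw with h2 | h2
          · linarith [h2.1]
          · linarith [h2.1]
  · intro y
    rw [OrderIso.trans_apply]
    by_cases h1 : a ≤ y
    · by_cases h2 : y ≤ b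
      · exact hψ4 y ⟨a, haZ', h1⟩ ⟨b, hbZ', h2⟩
      · push Not at h2
        rw [hψ2 y (by
          intro z hz
          rw [hZ', Finset.mem_insert, Finset.mem_insert] at hz
          rcases hz with rfl | rfl | hz
          · exact h1
          · exact h2.le
          · exact (hb3 z hz).le.trans h2.le)]
        exact hge y h2.le
    · push Not at h1
      rw [hψ3 y (by
        intro z hz
        rw [hZ', Finset.mem_insert, Finset.mem_insert] at hz
        rcases hz with rfl | rfl | hz
        · exact h1.le
        · exact h1.le.trans hab.le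
        · exact h1.le.trans (ha3 z hz).le)]
      exact hle y h1.le

end Pool.Agent.Lib.MP_ec0437_lc
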