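import Mathlib
import Pool.Agent.Lib.MP_ec0437_lc.StepLemma

/-!
Determinacy of sign diagrams (Cohen–Hörmander elimination in an abstract form).
-/

set_option autoImplicit false

open Set Polynomial

namespace Pool.Agent.Lib.MP_ec0437_lc

section PDiv

variable {R : Type*} [CommRing R]

theorem exists_pseudoDiv_aux (g : R[X]) (hg : 0 < g.natDegree) (n : ℕ) :
    ∀ h : R[X], h.natDegree < n →
    ∃ (N : ℕ) (B r : R[X]), C (g.leadingCoeff ^ N) * h = B * g + r ∧
      r.natDegree < g.natDegree := by
  induction n with
  | zero => intro h hh; omega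
  | succ n ih =>
    intro h hh
    by_cases hlt : h.natDegree < g.natDegree
    · exact ⟨0, 0, h, by simp, hlt⟩
    · push Not at hlt
      set k := h.natDegree - g.natDegree with hk
      set h' := C g.leadingCoeff * h - C h.leadingCoeff * X ^ k * g with hh'
      have hdeg : h'.natDegree < h.natDegree := by
        have : h'.natDegree ≤ h.natDegree - 1 := by
          rw [natDegree_le_iff_coeff_eq_zero]
          intro m hm
          have hm' : h.natDegree ≤ m := by omega
          rw [hh', coeff_sub, coeff_C_mul, mul_assoc, coeff_C_mul]
          rw [show X ^ k * g = g * X ^ k by ring]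
          rcases hm'.eq_or_lt with heq | hlt2
          · rw [← heq]
            have : h.natDegree = g.natDegree + k := by omega
            conv_lhs => rw [this, coeff_mul_X_pow]
            rw [← this]
            simp only [leadingCoeff]
            ring
          · rw [coeff_eq_zero_of_natDegree_lt hlt2]
            have hmk : g.natDegree < m - k := by omega
            have : m = (m - k) + k := by omega
            rw [this, coeff_mul_X_pow, coeff_eq_zero_of_natDegree_lt hmk]
            ring
        omega
      obtain ⟨N, B, r, h1, h2⟩ := ih h' (by omega)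
      refine ⟨N + 1, B + C (g.leadingCoeff ^ N) * (C h.leadingCoeff * X ^ k), r, ?_, h2⟩
      have : C (g.leadingCoeff ^ (N + 1)) * h = C (g.leadingCoeff ^ N) * (C g.leadingCoeff * h) := by
        rw [← mul_assoc, ← C_mul, pow_succ]
      rw [this, show C g.leadingCoeff * h = h' + C h.leadingCoeff * X ^ k * g by rw [hh']; ring,
        mul_add, h1]
      ring

theorem exists_pseudoDiv (g : R[X]) (hg : 0 < g.natDegree) (h : R[X]) :
    ∃ (N : ℕ) (B r : R[X]), C (g.leadingCoeff ^ (2 * N)) * h = B * g + r ∧
      r.natDegree < g.natDegree := by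
  obtain ⟨N, B, r, h1, h2⟩ := exists_pseudoDiv_aux g hg (h.natDegree + 1) h (by omega)
  refine ⟨N, C (g.leadingCoeff ^ N) * B, C (g.leadingCoeff ^ N) * r, ?_, ?_⟩
  · rw [two_mul, pow_add, C_mul, mul_assoc, h1]
    ring
  · exact lt_of_le_of_lt (natDegree_C_mul_le _ _) h2

/-- pseudo-remainder (junk value `0` if `g` is constant). -/
noncomputable def prem (h g : R[X]) : R[X] :=
  open Classical in
  if hg : 0 < g.natDegree then (exists_pseudoDiv g hg h).choose_spec.choose_spec.choose else 0

theorem prem_spec (h g : R[X]) (hg : 0 < g.natDegree) :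
    ∃ (N : ℕ) (B : R[X]), C (g.leadingCoeff ^ (2 * N)) * h = B * g + prem h g := by
  refine ⟨(exists_pseudoDiv g hg h).choose, (exists_pseudoDiv g hg h).choose_spec.choose, ?_⟩
  have := (exists_pseudoDiv g hg h).choose_spec.choose_spec.choose_spec.1
  simp only [prem, hg, dite_true]
  exact this

theorem natDegree_prem_lt (h g : R[X]) (hg : 0 < g.natDegree) :
    (prem h g).natDegree < g.natDegree := by
  have := (exists_pseudoDiv g hg h).choose_spec.choose_spec.choose_spec.2
  simp only [prem, hg, dite_true]
  exact this

theorem prem_of_not (h g : R[X]) (hg : ¬ 0 < g.natDegree) : prem h g = 0 := by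
  simp only [prem, hg, dite_false]

/-- truncation of a polynomial to degree `≤ k`. -/
noncomputable def tr (k : ℕ) (q : R[X]) : R[X] := ∑ i ∈ Finset.range (k + 1), monomial i (q.coeff i)

theorem coeff_tr (k : ℕ) (q : R[X]) (i : ℕ) :
    (tr k q).coeff i = if i ≤ k then q.coeff i else 0 := by
  rw [tr, finsetSum_coeff]
  simp only [coeff_monomial]
  rw [Finset.sum_ite_eq' (Finset.range (k + 1)) i]
  simp

theorem natDegree_tr_le (k : ℕ) (q : R[X]) : (tr k q).natDegree ≤ k := by
  rw [natDegree_le_iff_coeff_eq_zero]
  intro N hN
  rw [coeff_tr, if_neg (by omega)]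

end PDiv

section Det

variable {R : Type*} [CommRing R] {X : Type*}

/-- Sign diagrams of the family `P` are determined by finitely many signs of coefficients. -/
def DET (ev : X → R →+* ℝ) (P : Finset R[X]) : Prop :=
  ∃ A : Finset R, ∀ x x' : X,
    (∀ a ∈ A, SignType.sign (ev x a) = SignType.sign (ev x' a)) →
    ∃ φ : ℝ ≃o ℝ, ∀ p ∈ P, ∀ y : ℝ,
      SignType.sign ((p.map (ev x)).eval y) = SignType.sign ((p.map (ev x')).eval (φ y))

theorem sign_mul_sq_pow {c : ℝ} (hc : c ≠ 0) (N : ℕ) (a : ℝ) :
    SignType.sign (c ^ (2 * N) * a) = SignType.sign a := by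
  have : 0 < c ^ (2 * N) := by
    rw [pow_mul]
    exact pow_pos (pow_pos_of_ne_zero hc) N
  rw [sign_mul, sign_pos this, one_mul]
where
  pow_pos_of_ne_zero {c : ℝ} (hc : c ≠ 0) : 0 < c ^ 2 := by positivity

theorem det_step (ev : X → R →+* ℝ) (h : R[X]) (hd : 0 < h.natDegree) (Q : Finset R[X])
    (hQ : ∀ q ∈ Q, q.natDegree ≤ h.natDegree) :
    ∃ Cl : Finset R[X], (∀ c ∈ Cl, c.natDegree < h.natDegree) ∧
      (∀ Q' : Finset R[X], Cl ⊆ Q' → Q ⊆ Q' → DET ev Q' →
        ∃ A : Finset R, ∀ x x' : X,
          (∀ a ∈ A, SignType.sign (ev x a) = SignType.sign (ev x' a)) →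
          ∃ φ : ℝ ≃o ℝ, (∀ p ∈ Q, ∀ y : ℝ,
            SignType.sign ((p.map (ev x)).eval y) = SignType.sign ((p.map (ev x')).eval (φ y))) ∧
            ∀ y : ℝ,
            SignType.sign ((h.map (ev x)).eval y) =
              SignType.sign ((h.map (ev x')).eval (φ y))) := by
  classical
  set d := h.natDegree with hdef
  set S : Finset R[X] := insert (derivative h) Q with hS
  have hSdeg : ∀ q ∈ S, q.natDegree ≤ d := by
    intro q hq
    rcases Finset.mem_insert.1 hq with rfl | hq
    · exact (natDegree_derivative_lt (by omega)).le
    · exact hQ q hq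
  refine ⟨insert (derivative h) (insert h.eraseLead
    ((S ×ˢ Finset.range (d + 1)).image (fun qk => prem h (tr qk.2 qk.1)))), ?_, ?_⟩
  · intro c hc
    rw [Finset.mem_insert, Finset.mem_insert, Finset.mem_image] at hc
    rcases hc with rfl | rfl | ⟨⟨q, k⟩, hqk, rfl⟩
    · exact natDegree_derivative_lt (by omega)
    · have := eraseLead_natDegree_le h
      omega
    · rw [Finset.mem_product, Finset.mem_range] at hqk
      by_cases hg : 0 < (tr k q).natDegree
      · have h1 := natDegree_prem_lt h _ hg
        have h2 := natDegree_tr_le k q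
        have h3 := hqk.2
        simp only at h3 ⊢
        omega
      · rw [prem_of_not _ _ hg]
        simpa using hd
  · intro Q' hCl hQQ' hdet
    obtain ⟨A', hA'⟩ := hdet
    refine ⟨A' ∪ ((S ×ˢ Finset.range (d + 1)).image (fun qi => qi.1.coeff qi.2)) ∪ {h.coeff d},
      ?_⟩
    intro x x' hxx'
    obtain ⟨φ, hφ⟩ := hA' x x' (fun a ha => hxx' a (by simp [ha]))
    have hlead : SignType.sign (ev x (h.coeff d)) = SignType.sign (ev x' (h.coeff d)) :=
      hxx' _ (by simp)
    have hcoef : ∀ q ∈ S, ∀ i, SignType.sign (ev x (q.coeff i)) =
        SignType.sign (ev x' (q.coeff i)) := by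
      intro q hq i
      by_cases hi : i ≤ d
      · apply hxx'
        rw [Finset.mem_union, Finset.mem_union]
        left; right
        rw [Finset.mem_image]
        exact ⟨(q, i), by rw [Finset.mem_product, Finset.mem_range]; exact ⟨hq, by omega⟩, rfl⟩
      · rw [coeff_eq_zero_of_natDegree_lt (lt_of_le_of_lt (hSdeg q hq) (by omega))]
        simp
    have hcoef0 : ∀ q ∈ S, ∀ i, ev x (q.coeff i) = 0 ↔ ev x' (q.coeff i) = 0 := by
      intro q hq i
      rw [← sign_eq_zero_iff, hcoef q hq i, sign_eq_zero_iff]
    have hSQ' : ∀ q ∈ S, q ∈ Q' := by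
      intro q hq
      rcases Finset.mem_insert.1 hq with rfl | hq
      · exact hCl (Finset.mem_insert_self _ _)
      · exact hQQ' hq
    by_cases hz : ev x (h.coeff d) = 0
    · -- the leading coefficient vanishes
      have hz' : ev x' (h.coeff d) = 0 := by
        rw [← sign_eq_zero_iff, ← hlead, sign_eq_zero_iff]; exact hz
      refine ⟨φ, fun p hp => hφ p (hQQ' hp), fun y => ?_⟩
      have herase : ∀ z : X, ev z (h.coeff d) = 0 → h.map (ev z) = h.eraseLead.map (ev z) := by
        intro z hz0
        conv_lhs => rw [← eraseLead_add_C_mul_X_pow h]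
        rw [Polynomial.map_add, Polynomial.map_mul, map_C, leadingCoeff, hz0]
        simp
      rw [herase x hz, herase x' hz']
      exact hφ _ (hCl (Finset.mem_insert_of_mem (Finset.mem_insert_self _ _))) y
    · have hz' : ev x' (h.coeff d) ≠ 0 := by
        rw [Ne, ← sign_eq_zero_iff, ← hlead, sign_eq_zero_iff]; exact hz
      have hnx : (h.map (ev x)).natDegree = d :=
        natDegree_map_of_leadingCoeff_ne_zero _ hz
      have hnx' : (h.map (ev x')).natDegree = d :=
        natDegree_map_of_leadingCoeff_ne_zero _ hz'
      have hlx : (h.map (ev x)).leadingCoeff = ev x (h.coeff d) := by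
        rw [leadingCoeff, hnx, coeff_map]
      have hlx' : (h.map (ev x')).leadingCoeff = ev x' (h.coeff d) := by
        rw [leadingCoeff, hnx', coeff_map]
      obtain ⟨φ', h1, h2⟩ := step_lemma S (fun q => q.map (ev x)) (fun q => q.map (ev x')) φ
        (fun q hq y => hφ q (hSQ' q hq) y) (h.map (ev x)) (h.map (ev x'))
        (by rw [hnx, hnx']) (by rw [hnx]; exact hd) (by rw [hlx, hlx', hlead])
        (derivative h) (Finset.mem_insert_self _ _) (derivative_map _ _).symm
        (derivative_map _ _).symm (by
          intro q hq hq0 y hy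
          -- root case
          set k := (q.map (ev x)).natDegree with hk
          have hk0 : 0 < k := by
            by_contra hk0
            have hk0' : k = 0 := by omega
            have hC := eq_C_of_natDegree_eq_zero hk0'
            rw [hC, eval_C] at hy
            rw [hy, C_0] at hC
            exact hq0 hC
          have hkc : ev x (q.coeff k) ≠ 0 := by
            have : (q.map (ev x)).leadingCoeff ≠ 0 := leadingCoeff_ne_zero.2 hq0
            rwa [leadingCoeff, ← hk, coeff_map] at this
          have hkc' : ev x' (q.coeff k) ≠ 0 := fun h0 => hkc ((hcoef0 q hq k).2 h0)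
          have hkd : k ≤ d := (natDegree_map_le).trans (hSdeg q hq)
          have hqk : q.coeff k ≠ 0 := fun h0 => hkc (by rw [h0, map_zero])
          have hgdeg : (tr k q).natDegree = k := by
            apply le_antisymm (natDegree_tr_le k q)
            apply le_natDegree_of_ne_zero
            rw [coeff_tr, if_pos le_rfl]
            exact hqk
          have hglc : (tr k q).leadingCoeff = q.coeff k := by
            rw [leadingCoeff, hgdeg, coeff_tr, if_pos le_rfl]
          have hgx : (tr k q).map (ev x) = q.map (ev x) := by
            ext i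
            rw [coeff_map, coeff_map, coeff_tr]
            split_ifs with hi
            · rfl
            · have : (q.map (ev x)).coeff i = 0 := coeff_eq_zero_of_natDegree_lt (by omega)
              rw [coeff_map] at this
              rw [this, map_zero]
          have hgx' : (tr k q).map (ev x') = q.map (ev x') := by
            ext i
            rw [coeff_map, coeff_map, coeff_tr]
            split_ifs with hi
            · rfl
            · have : (q.map (ev x)).coeff i = 0 := coeff_eq_zero_of_natDegree_lt (by omega)
              rw [coeff_map, hcoef0 q hq i] at this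
              rw [this, map_zero]
          obtain ⟨N, B, hB⟩ := prem_spec h (tr k q) (by rw [hgdeg]; exact hk0)
          have hy' : (q.map (ev x')).eval (φ y) = 0 := by
            have := hφ q (hSQ' q hq) y
            rw [hy, sign_zero] at this
            exact sign_eq_zero_iff.1 this.symm
          have hmem : prem h (tr k q) ∈ Q' := by
            apply hCl
            rw [Finset.mem_insert, Finset.mem_insert, Finset.mem_image]
            right; right
            exact ⟨(q, k), by rw [Finset.mem_product, Finset.mem_range]; exact ⟨hq, by omega⟩, rfl⟩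
          have e1 : (ev x (q.coeff k)) ^ (2 * N) * (h.map (ev x)).eval y =
              ((prem h (tr k q)).map (ev x)).eval y := by
            have := congrArg (fun p : R[X] => (p.map (ev x)).eval y) hB
            simp only [Polynomial.map_mul, Polynomial.map_add, map_C, eval_mul, eval_add, eval_C,
              hglc, map_pow, Polynomial.map_pow, eval_pow, hgx, hy, mul_zero, zero_add] at this
            exact this
          have e2 : (ev x' (q.coeff k)) ^ (2 * N) * (h.map (ev x')).eval (φ y) =
              ((prem h (tr k q)).map (ev x')).eval (φ y) := by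
            have := congrArg (fun p : R[X] => (p.map (ev x')).eval (φ y)) hB
            simp only [Polynomial.map_mul, Polynomial.map_add, map_C, eval_mul, eval_add, eval_C,
              hglc, map_pow, Polynomial.map_pow, eval_pow, hgx', hy', mul_zero, zero_add] at this
            exact this
          rw [← sign_mul_sq_pow hkc N, e1, hφ _ hmem y, ← e2, sign_mul_sq_pow hkc' N])
      exact ⟨φ', fun p hp => h1 p (Finset.mem_insert_of_mem hp), h2⟩

theorem det_mono (ev : X → R →+* ℝ) {P P' : Finset R[X]} (h : P ⊆ P') (hd : DET ev P') :
    DET ev P := by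
  obtain ⟨A, hA⟩ := hd
  refine ⟨A, fun x x' hx => ?_⟩
  obtain ⟨φ, hφ⟩ := hA x x' hx
  exact ⟨φ, fun p hp => hφ p (h hp)⟩

theorem det_lt (ev : X → R →+* ℝ) (d : ℕ) :
    ∀ P : Finset R[X], (∀ p ∈ P, p.natDegree < d + 1) → DET ev P := by
  classical
  induction d with
  | zero =>
    intro P hP
    refine ⟨P.image (fun p => p.coeff 0), fun x x' hx => ⟨OrderIso.refl ℝ, fun p hp y => ?_⟩⟩
    have h0 : p.natDegree = 0 := by have := hP p hp; omega
    have hC := eq_C_of_natDegree_eq_zero h0
    rw [hC]
    simp only [map_C, eval_C]
    exact hx _ (Finset.mem_image_of_mem (fun p : R[X] => p.coeff 0) hp)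
  | succ d ih =>
    have key : ∀ H : Finset R[X], (∀ h ∈ H, h.natDegree = d + 1) →
        ∀ P : Finset R[X], (∀ p ∈ P, p.natDegree < d + 1) → DET ev (P ∪ H) := by
      intro H
      induction H using Finset.induction_on with
      | empty =>
        intro _ P hP
        rw [Finset.union_empty]
        exact ih P hP
      | insert h H hh ihH =>
        intro hH P hP
        have hhd : h.natDegree = d + 1 := hH h (Finset.mem_insert_self _ _)
        have hH' : ∀ q ∈ H, q.natDegree = d + 1 := fun q hq => hH q (Finset.mem_insert_of_mem hq)
        obtain ⟨Cl, hCl, hstep⟩ := det_step ev h (by omega) (P ∪ H) (by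
          intro q hq
          rcases Finset.mem_union.1 hq with hq | hq
          · have := hP q hq; omega
          · have := hH' q hq; omega)
        obtain ⟨A, hA⟩ := hstep ((P ∪ Cl) ∪ H)
          (fun c hc => Finset.mem_union_left _ (Finset.mem_union_right _ hc))
          (fun c hc => by
            rcases Finset.mem_union.1 hc with hc | hc
            · exact Finset.mem_union_left _ (Finset.mem_union_left _ hc)
            · exact Finset.mem_union_right _ hc)
          (ihH hH' (P ∪ Cl) (by
            intro p hp
            rcases Finset.mem_union.1 hp with hp | hp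
            · exact hP p hp
            · have := hCl p hp; omega))
        refine ⟨A, fun x x' hx => ?_⟩
        obtain ⟨φ, h1, h2⟩ := hA x x' hx
        refine ⟨φ, fun p hp => ?_⟩
        rcases Finset.mem_union.1 hp with hp | hp
        · exact h1 p (Finset.mem_union_left _ hp)
        · rcases Finset.mem_insert.1 hp with rfl | hp
          · exact h2
          · exact h1 p (Finset.mem_union_right _ hp)
    intro P hP
    have := key (P.filter (fun p => p.natDegree = d + 1)) (by simp)
      (P.filter (fun p => p.natDegree < d + 1)) (by simp)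
    apply det_mono ev _ this
    intro p hp
    rw [Finset.mem_union, Finset.mem_filter, Finset.mem_filter]
    have := hP p hp
    by_cases h : p.natDegree = d + 1
    · right; exact ⟨hp, h⟩
    · left; exact ⟨hp, by omega⟩

/-- Every finite family of polynomials over `R` has determined sign diagrams. -/
theorem det_all (ev : X → R →+* ℝ) (P : Finset R[X]) : DET ev P := by
  apply det_lt ev (P.sup natDegree)
  intro p hp
  exact Nat.lt_succ_of_le (Finset.le_sup (f := natDegree) hp)

end Det

end Pool.Agent.Lib.MP_ec0437_lc
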