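import Mathlib
import Pool.Agent.Lib.MP_ec0437_lc.Det

/-!
Semialgebraic sets (with real parameters): finite unions of sign classes of finitely many
polynomials. Closure under projections and uniform finiteness.
-/

set_option autoImplicit false

open Set

namespace Pool.Agent.Lib.MP_ec0437_lc

/-- Polynomial functions of a tuple of real variables. -/
def PolyFun {ι : Type} (g : (ι → ℝ) → ℝ) : Prop :=
  ∃ p : MvPolynomial ι ℝ, ∀ v, g v = MvPolynomial.eval v p

/-- Polynomial maps. -/
def PolyMap {ι κ : Type} (g : (ι → ℝ) → (κ → ℝ)) : Prop := ∀ k, PolyFun (fun v => g v k)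

theorem PolyFun.coord {ι : Type} (i : ι) : PolyFun (fun v : ι → ℝ => v i) :=
  ⟨MvPolynomial.X i, fun v => by simp⟩

theorem PolyFun.const {ι : Type} (c : ℝ) : PolyFun (fun _ : ι → ℝ => c) :=
  ⟨MvPolynomial.C c, fun v => by simp⟩

theorem PolyFun.add {ι : Type} {g h : (ι → ℝ) → ℝ} (hg : PolyFun g) (hh : PolyFun h) :
    PolyFun (fun v => g v + h v) := by
  obtain ⟨p, hp⟩ := hg
  obtain ⟨q, hq⟩ := hh
  exact ⟨p + q, fun v => by simp [hp, hq]⟩

theorem PolyFun.mul {ι : Type} {g h : (ι → ℝ) → ℝ} (hg : PolyFun g) (hh : PolyFun h) :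
    PolyFun (fun v => g v * h v) := by
  obtain ⟨p, hp⟩ := hg
  obtain ⟨q, hq⟩ := hh
  exact ⟨p * q, fun v => by simp [hp, hq]⟩

theorem PolyFun.neg {ι : Type} {g : (ι → ℝ) → ℝ} (hg : PolyFun g) :
    PolyFun (fun v => - g v) := by
  obtain ⟨p, hp⟩ := hg
  exact ⟨-p, fun v => by simp [hp]⟩

theorem PolyFun.sub {ι : Type} {g h : (ι → ℝ) → ℝ} (hg : PolyFun g) (hh : PolyFun h) :
    PolyFun (fun v => g v - h v) := by
  obtain ⟨p, hp⟩ := hg
  obtain ⟨q, hq⟩ := hh
  exact ⟨p - q, fun v => by simp [hp, hq]⟩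

theorem PolyFun.comp {ι κ : Type} {g : (κ → ℝ) → ℝ} {h : (ι → ℝ) → (κ → ℝ)} (hg : PolyFun g)
    (hh : PolyMap h) : PolyFun (fun v => g (h v)) := by
  obtain ⟨p, hp⟩ := hg
  choose q hq using hh
  refine ⟨MvPolynomial.bind₁ q p, fun v => ?_⟩
  have : h v = fun i => MvPolynomial.eval v (q i) := funext (fun k => hq k v)
  change g (h v) = _
  rw [hp, this]
  exact (MvPolynomial.eval₂Hom_bind₁ (RingHom.id ℝ) v q p).symm

theorem PolyMap.comp {ι κ μ : Type} {g : (κ → ℝ) → (μ → ℝ)} {h : (ι → ℝ) → (κ → ℝ)}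
    (hg : PolyMap g) (hh : PolyMap h) : PolyMap (fun v => g (h v)) :=
  fun k => (hg k).comp hh

theorem PolyMap.id {ι : Type} : PolyMap (fun v : ι → ℝ => v) := fun k => PolyFun.coord k

theorem PolyMap.reindex {ι κ : Type} (e : κ → ι) : PolyMap (fun v : ι → ℝ => fun k => v (e k)) :=
  fun k => PolyFun.coord (e k)

theorem PolyMap.const {ι κ : Type} (c : κ → ℝ) : PolyMap (fun _ : ι → ℝ => c) :=
  fun k => PolyFun.const (c k)

/-- Semialgebraic sets. -/
def SA {ι : Type} (S : Set (ι → ℝ)) : Prop :=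
  ∃ A : Finset (MvPolynomial ι ℝ), ∀ v v' : ι → ℝ,
    (∀ a ∈ A, SignType.sign (MvPolynomial.eval v a) = SignType.sign (MvPolynomial.eval v' a)) →
    (v ∈ S ↔ v' ∈ S)

namespace SA

variable {ι κ μ : Type}

theorem compl {S : Set (ι → ℝ)} (h : SA S) : SA Sᶜ := by
  obtain ⟨A, hA⟩ := h
  exact ⟨A, fun v v' hv => not_congr (hA v v' hv)⟩

theorem inter {S T : Set (ι → ℝ)} (hS : SA S) (hT : SA T) : SA (S ∩ T) := by
  classical
  obtain ⟨A, hA⟩ := hS
  obtain ⟨B, hB⟩ := hT
  refine ⟨A ∪ B, fun v v' hv => ?_⟩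
  exact and_congr (hA v v' (fun a ha => hv a (Finset.mem_union_left _ ha)))
    (hB v v' (fun a ha => hv a (Finset.mem_union_right _ ha)))

theorem union {S T : Set (ι → ℝ)} (hS : SA S) (hT : SA T) : SA (S ∪ T) := by
  classical
  obtain ⟨A, hA⟩ := hS
  obtain ⟨B, hB⟩ := hT
  refine ⟨A ∪ B, fun v v' hv => ?_⟩
  exact or_congr (hA v v' (fun a ha => hv a (Finset.mem_union_left _ ha)))
    (hB v v' (fun a ha => hv a (Finset.mem_union_right _ ha)))

theorem const (p : Prop) : SA {_v : ι → ℝ | p} := ⟨∅, fun _ _ _ => Iff.rfl⟩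

theorem and {P Q : (ι → ℝ) → Prop} (hP : SA {v | P v}) (hQ : SA {v | Q v}) :
    SA {v | P v ∧ Q v} := hP.inter hQ

theorem or {P Q : (ι → ℝ) → Prop} (hP : SA {v | P v}) (hQ : SA {v | Q v}) :
    SA {v | P v ∨ Q v} := hP.union hQ

theorem not {P : (ι → ℝ) → Prop} (hP : SA {v | P v}) : SA {v | ¬ P v} := hP.compl

theorem imp {P Q : (ι → ℝ) → Prop} (hP : SA {v | P v}) (hQ : SA {v | Q v}) :
    SA {v | P v → Q v} := by
  have := hP.not.or hQ
  refine (congrArg SA ?_).mp this
  ext v
  exact imp_iff_not_or.symm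

theorem eq0 {g : (ι → ℝ) → ℝ} (hg : PolyFun g) : SA {v | g v = 0} := by
  obtain ⟨p, hp⟩ := hg
  refine ⟨{p}, fun v v' hv => ?_⟩
  have := hv p (Finset.mem_singleton_self p)
  change g v = 0 ↔ g v' = 0
  rw [hp, hp, ← sign_eq_zero_iff, this, sign_eq_zero_iff]

theorem pos {g : (ι → ℝ) → ℝ} (hg : PolyFun g) : SA {v | 0 < g v} := by
  obtain ⟨p, hp⟩ := hg
  refine ⟨{p}, fun v v' hv => ?_⟩
  have := hv p (Finset.mem_singleton_self p)
  change 0 < g v ↔ 0 < g v'
  rw [hp, hp, ← sign_eq_one_iff, this, sign_eq_one_iff]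

theorem eq {g h : (ι → ℝ) → ℝ} (hg : PolyFun g) (hh : PolyFun h) : SA {v | g v = h v} := by
  have := eq0 (hg.sub hh)
  refine (congrArg SA ?_).mp this
  ext v
  exact sub_eq_zero

theorem lt {g h : (ι → ℝ) → ℝ} (hg : PolyFun g) (hh : PolyFun h) : SA {v | g v < h v} := by
  have := pos (hh.sub hg)
  refine (congrArg SA ?_).mp this
  ext v
  exact sub_pos (a := h v) (b := g v)

theorem le {g h : (ι → ℝ) → ℝ} (hg : PolyFun g) (hh : PolyFun h) : SA {v | g v ≤ h v} := by
  have := (lt hh hg).not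
  refine (congrArg SA ?_).mp this
  ext v
  exact not_lt

theorem preimage {g : (ι → ℝ) → (κ → ℝ)} (hg : PolyMap g) {S : Set (κ → ℝ)} (hS : SA S) :
    SA {v | g v ∈ S} := by
  classical
  obtain ⟨A, hA⟩ := hS
  choose q hq using hg
  refine ⟨A.image (MvPolynomial.bind₁ q), fun v v' hv => ?_⟩
  apply hA
  intro a ha
  have key : ∀ w : ι → ℝ, MvPolynomial.eval (g w) a =
      MvPolynomial.eval w (MvPolynomial.bind₁ q a) := by
    intro w
    have : g w = fun i => MvPolynomial.eval w (q i) := funext (fun k => hq k w)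
    rw [this]
    exact (MvPolynomial.eval₂Hom_bind₁ (RingHom.id ℝ) w q a).symm
  rw [key, key]
  exact hv _ (Finset.mem_image_of_mem _ ha)

theorem eval_optionEquivLeft (v : ι → ℝ) (y : ℝ) (p : MvPolynomial (Option ι) ℝ) :
    MvPolynomial.eval (fun o => Option.elim o y v) p =
      (((MvPolynomial.optionEquivLeft ℝ ι p).map (MvPolynomial.eval v)).eval y) := by
  induction p using MvPolynomial.induction_on with
  | C a => simp
  | add p q hp hq => simp [hp, hq]
  | mul_X p o hp =>
    rw [map_mul, map_mul, Polynomial.map_mul, Polynomial.eval_mul, hp]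
    congr 1
    cases o with
    | none => simp
    | some i => simp

theorem ex {P : (ι → ℝ) → ℝ → Prop} (h : SA {w : Option ι → ℝ | P (fun i => w (some i)) (w none)}) :
    SA {v | ∃ y, P v y} := by
  classical
  obtain ⟨A, hA⟩ := h
  obtain ⟨B, hB⟩ := det_all (fun v : ι → ℝ => MvPolynomial.eval v)
    (A.image (MvPolynomial.optionEquivLeft ℝ ι))
  have key : ∀ v v' : ι → ℝ,
      (∀ a ∈ B, SignType.sign (MvPolynomial.eval v a) = SignType.sign (MvPolynomial.eval v' a)) →
      (∃ y, P v y) → ∃ y, P v' y := by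
    rintro v v' hv ⟨y, hy⟩
    obtain ⟨φ, hφ⟩ := hB v v' hv
    refine ⟨φ y, ?_⟩
    have := (hA (fun o => Option.elim o y v) (fun o => Option.elim o (φ y) v') (by
      intro a ha
      rw [eval_optionEquivLeft, eval_optionEquivLeft]
      exact hφ _ (Finset.mem_image_of_mem _ ha) y)).1 hy
    exact this
  exact ⟨B, fun v v' hv => ⟨key v v' hv, key v' v (fun a ha => (hv a ha).symm)⟩⟩

theorem all {P : (ι → ℝ) → ℝ → Prop}
    (h : SA {w : Option ι → ℝ | P (fun i => w (some i)) (w none)}) :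
    SA {v | ∀ y, P v y} := by
  have := (ex (P := fun v y => ¬ P v y) h.not).not
  refine (congrArg SA ?_).mp this
  ext v
  simp

theorem exFin {k : ℕ} : ∀ {P : (ι → ℝ) → (Fin k → ℝ) → Prop},
    SA {w : ι ⊕ Fin k → ℝ | P (fun i => w (Sum.inl i)) (fun i => w (Sum.inr i))} →
    SA {v | ∃ u, P v u} := by
  induction k with
  | zero =>
    intro P h
    have := preimage (g := fun v : ι → ℝ => Sum.elim v (Fin.elim0 : Fin 0 → ℝ))
      (by rintro (i | i); exacts [PolyFun.coord i, i.elim0]) h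
    refine (congrArg SA ?_).mp this
    ext v
    constructor
    · intro h
      exact ⟨_, h⟩
    · rintro ⟨u, hu⟩
      have : u = fun i : Fin 0 => (Sum.elim v (Fin.elim0 : Fin 0 → ℝ)) (Sum.inr i) :=
        Subsingleton.elim _ _
      rw [this] at hu
      exact hu
  | succ k ih =>
    intro P h
    have h1 : SA {v : ι → ℝ | ∃ u : Fin k → ℝ, ∃ y : ℝ, P v (Fin.cons y u)} := by
      apply ih
      apply ex (P := fun w y => P (fun i => w (Sum.inl i)) (Fin.cons y (fun i => w (Sum.inr i))))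
      have := preimage (g := fun w : Option (ι ⊕ Fin k) → ℝ =>
        Sum.elim (fun i => w (some (Sum.inl i)))
          (Fin.cons (w none) (fun i => w (some (Sum.inr i))) : Fin (k + 1) → ℝ))
        (by
          rintro (i | i)
          · exact PolyFun.coord _
          · refine Fin.cases ?_ (fun j => ?_) i
            · exact PolyFun.coord _
            · exact PolyFun.coord _) h
      exact this
    refine (congrArg SA ?_).mp h1
    ext v
    constructor
    · rintro ⟨u, y, h⟩
      exact ⟨_, h⟩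
    · rintro ⟨u, hu⟩
      exact ⟨Fin.tail u, u 0, by rw [Fin.cons_self_tail]; exact hu⟩

theorem allFin {k : ℕ} {P : (ι → ℝ) → (Fin k → ℝ) → Prop}
    (h : SA {w : ι ⊕ Fin k → ℝ | P (fun i => w (Sum.inl i)) (fun i => w (Sum.inr i))}) :
    SA {v | ∀ u, P v u} := by
  have := (exFin (P := fun v y => ¬ P v y) h.not).not
  refine (congrArg SA ?_).mp this
  ext v
  simp

theorem existsFinite {α : Type*} [Finite α] {P : α → (ι → ℝ) → Prop}
    (h : ∀ a, SA {v | P a v}) : SA {v | ∃ a, P a v} := by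
  classical
  choose A hA using h
  cases nonempty_fintype α
  refine ⟨Finset.univ.biUnion A, fun v v' hv => ?_⟩
  exact exists_congr (fun a => hA a v v' (fun b hb => hv b
    (Finset.mem_biUnion.2 ⟨a, Finset.mem_univ _, hb⟩)))

theorem forallFinite {α : Type*} [Finite α] {P : α → (ι → ℝ) → Prop}
    (h : ∀ a, SA {v | P a v}) : SA {v | ∀ a, P a v} := by
  classical
  choose A hA using h
  cases nonempty_fintype α
  refine ⟨Finset.univ.biUnion A, fun v v' hv => ?_⟩
  exact forall_congr' (fun a => hA a v v' (fun b hb => hv b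
    (Finset.mem_biUnion.2 ⟨a, Finset.mem_univ _, hb⟩)))

/-- Uniform finiteness. -/
theorem uniform_finiteness {T : (ι → ℝ) → ℝ → Prop}
    (h : SA {w : Option ι → ℝ | T (fun i => w (some i)) (w none)}) :
    ∃ M : ℕ, ∀ v, {y | T v y}.encard ≤ M ∨ ∃ a b, a < b ∧ ∀ y, a < y → y < b → T v y := by
  classical
  obtain ⟨A, hA⟩ := h
  set P := A.image (MvPolynomial.optionEquivLeft ℝ ι) with hP
  refine ⟨∑ p ∈ P, p.natDegree, fun v => ?_⟩
  set Z : Finset ℝ := P.biUnion (fun p => (p.map (MvPolynomial.eval v)).roots.toFinset) with hZ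
  by_cases hsub : {y | T v y} ⊆ Z
  · left
    calc {y | T v y}.encard ≤ (Z : Set ℝ).encard := Set.encard_le_encard hsub
      _ = Z.card := Set.encard_coe_eq_coe_finsetCard Z
      _ ≤ _ := by
        norm_cast
        refine Finset.card_biUnion_le.trans (Finset.sum_le_sum (fun p _ => ?_))
        exact (Multiset.toFinset_card_le _).trans
          ((Polynomial.card_roots' _).trans Polynomial.natDegree_map_le)
  · right
    rw [Set.not_subset] at hsub
    obtain ⟨y, hy, hyZ⟩ := hsub
    -- signs are locally constant near y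
    have hev : ∀ᶠ z in nhds y, ∀ p ∈ P,
        SignType.sign ((p.map (MvPolynomial.eval v)).eval z) =
          SignType.sign ((p.map (MvPolynomial.eval v)).eval y) := by
      rw [Filter.eventually_all_finset]
      intro p hp
      by_cases hp0 : p.map (MvPolynomial.eval v) = 0
      · simp [hp0]
      · have hne : (p.map (MvPolynomial.eval v)).eval y ≠ 0 := by
          intro h0
          apply hyZ
          rw [hZ, Finset.mem_coe, Finset.mem_biUnion]
          exact ⟨p, hp, by rw [Multiset.mem_toFinset, Polynomial.mem_roots hp0]; exact h0⟩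
        have hc : Filter.Tendsto (fun z => (p.map (MvPolynomial.eval v)).eval z) (nhds y)
            (nhds ((p.map (MvPolynomial.eval v)).eval y)) :=
          (p.map (MvPolynomial.eval v)).continuous.tendsto y
        rcases lt_or_gt_of_ne hne with h1 | h1
        · filter_upwards [hc.eventually (gt_mem_nhds h1)] with z hz
          rw [sign_neg hz, sign_neg h1]
        · filter_upwards [hc.eventually (lt_mem_nhds h1)] with z hz
          rw [sign_pos hz, sign_pos h1]
    obtain ⟨l, u, hlu, hsub⟩ := mem_nhds_iff_exists_Ioo_subset.1 hev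
    refine ⟨l, u, hlu.1.trans hlu.2, fun z hz1 hz2 => ?_⟩
    have hz := hsub ⟨hz1, hz2⟩
    have := (hA (fun o => Option.elim o z v) (fun o => Option.elim o y v) (by
      intro a ha
      rw [eval_optionEquivLeft, eval_optionEquivLeft]
      exact hz _ (Finset.mem_image_of_mem _ ha))).2 hy
    exact this

end SA

end Pool.Agent.Lib.MP_ec0437_lc
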