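import Mathlib
import Pool.Agent.Lib.MP_ec0437_lc.SA

/-!
Thin sets of tuples, and the covering lemma for semialgebraic families.
-/

set_option autoImplicit false

open Set Cardinal

namespace Pool.Agent.Lib.MP_ec0437_lc

/-- `V` is thin if fewer than continuum many reals meet every injective tuple in `V`. -/
def Thin {k : ℕ} (V : Set (Fin k → ℝ)) : Prop :=
  ∃ D : Set ℝ, #D < 𝔠 ∧ ∀ s ∈ V, Function.Injective s → ∃ i, s i ∈ D

theorem Thin.mono {k : ℕ} {V W : Set (Fin k → ℝ)} (h : V ⊆ W) (hW : Thin W) : Thin V := by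
  obtain ⟨D, h1, h2⟩ := hW
  exact ⟨D, h1, fun s hs => h2 s (h hs)⟩

theorem mk_iUnion_lt {α : Type} (hα : #α < 𝔠) (F : α → Set ℝ) (hF : ∀ a, (F a).Countable) :
    #(⋃ a, F a) < 𝔠 := by
  calc #(⋃ a, F a) ≤ Cardinal.sum fun a => #(F a) := mk_iUnion_le_sum_mk
    _ ≤ Cardinal.sum fun _ : α => (ℵ₀ : Cardinal.{0}) := by
        apply sum_le_sum
        intro a
        exact (hF a).le_aleph0
    _ = #α * ℵ₀ := by rw [sum_const']
    _ < 𝔠 := mul_lt_of_lt aleph0_le_continuum hα aleph0_lt_continuum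

theorem mk_union_lt {A B : Set ℝ} (hA : #A < 𝔠) (hB : #B < 𝔠) : #(A ∪ B : Set ℝ) < 𝔠 :=
  (mk_union_le A B).trans_lt (add_lt_of_lt aleph0_le_continuum hA hB)

/-- relation of a parameter tuple and a tuple, semialgebraic. -/
def SA₂ {ι κ : Type} (S : (ι → ℝ) → (κ → ℝ) → Prop) : Prop :=
  SA {w : ι ⊕ κ → ℝ | S (fun i => w (Sum.inl i)) (fun i => w (Sum.inr i))}

def SA₁ {ι : Type} (T : (ι → ℝ) → ℝ → Prop) : Prop :=
  SA {w : Option ι → ℝ | T (fun i => w (some i)) (w none)}

def SA₃ {ι κ : Type} (S : (ι → ℝ) → (κ → ℝ) → (κ → ℝ) → Prop) : Prop :=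
  SA {w : ι ⊕ (κ ⊕ κ) → ℝ | S (fun i => w (Sum.inl i)) (fun i => w (Sum.inr (Sum.inl i)))
    (fun i => w (Sum.inr (Sum.inr i)))}

theorem SA₂.subst {ι κ μ : Type} {S : (ι → ℝ) → (κ → ℝ) → Prop} (h : SA₂ S)
    {g₁ : (μ → ℝ) → (ι → ℝ)} {g₂ : (μ → ℝ) → (κ → ℝ)} (h₁ : PolyMap g₁) (h₂ : PolyMap g₂) :
    SA {w | S (g₁ w) (g₂ w)} :=
  SA.preimage (g := fun w => Sum.elim (g₁ w) (g₂ w)) (by
    rintro (i | i)
    · exact h₁ i
    · exact h₂ i) h

theorem SA₁.subst {ι μ : Type} {S : (ι → ℝ) → ℝ → Prop} (h : SA₁ S)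
    {g₁ : (μ → ℝ) → (ι → ℝ)} {g₂ : (μ → ℝ) → ℝ} (h₁ : PolyMap g₁) (h₂ : PolyFun g₂) :
    SA {w | S (g₁ w) (g₂ w)} :=
  SA.preimage (g := fun w => fun o : Option ι => Option.elim o (g₂ w) (g₁ w)) (by
    rintro (_ | i)
    · exact h₂
    · exact h₁ i) h

theorem SA₃.subst {ι κ μ : Type} {S : (ι → ℝ) → (κ → ℝ) → (κ → ℝ) → Prop} (h : SA₃ S)
    {g₁ : (μ → ℝ) → (ι → ℝ)} {g₂ g₃ : (μ → ℝ) → (κ → ℝ)} (h₁ : PolyMap g₁) (h₂ : PolyMap g₂)
    (h₃ : PolyMap g₃) :
    SA {w | S (g₁ w) (g₂ w) (g₃ w)} :=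
  SA.preimage (g := fun w => Sum.elim (g₁ w) (Sum.elim (g₂ w) (g₃ w))) (by
    rintro (i | i | i)
    · exact h₁ i
    · exact h₂ i
    · exact h₃ i) h

theorem SA.subst {ι μ : Type} {S : (ι → ℝ) → Prop} (h : SA {w | S w})
    {g₁ : (μ → ℝ) → (ι → ℝ)} (h₁ : PolyMap g₁) :
    SA {w | S (g₁ w)} := SA.preimage h₁ h

theorem PolyMap.finCons {ι : Type} {k : ℕ} {a : (ι → ℝ) → ℝ} {g : (ι → ℝ) → (Fin k → ℝ)}
    (ha : PolyFun a) (hg : PolyMap g) :
    PolyMap (fun w => (Fin.cons (a w) (g w) : Fin (k + 1) → ℝ)) := by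
  intro i
  refine Fin.cases ?_ (fun j => ?_) i
  · exact ha
  · exact hg j

theorem PolyMap.insertNth {ι : Type} {k : ℕ} (i : Fin (k + 1)) {a : (ι → ℝ) → ℝ}
    {g : (ι → ℝ) → (Fin k → ℝ)} (ha : PolyFun a) (hg : PolyMap g) :
    PolyMap (fun w => (Fin.insertNth i (a w) (g w) : Fin (k + 1) → ℝ)) := by
  intro j
  rcases Fin.eq_self_or_eq_succAbove i j with rfl | ⟨l, rfl⟩
  · simpa using ha
  · simpa using hg l

theorem PolyMap.optElim {ι κ : Type} {a : (ι → ℝ) → ℝ} {g : (ι → ℝ) → (κ → ℝ)}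
    (ha : PolyFun a) (hg : PolyMap g) :
    PolyMap (fun w => fun o : Option κ => Option.elim o (a w) (g w)) := by
  rintro (_ | i)
  · exact ha
  · exact hg i

theorem SA.injective {μ : Type} {k : ℕ} {g : (μ → ℝ) → (Fin k → ℝ)} (hg : PolyMap g) :
    SA {w | Function.Injective (g w)} := by
  apply SA.forallFinite
  intro i
  apply SA.forallFinite
  intro j
  exact SA.imp (SA.eq (hg i) (hg j)) (SA.const _)

/-- The covering lemma. -/
theorem lemmaA (k : ℕ) : ∀ {ι : Type} (S : (ι → ℝ) → (Fin k → ℝ) → Prop), SA₂ S →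
    ∃ (T : (ι → ℝ) → ℝ → Prop) (M : ℕ), SA₁ T ∧
      (∀ x, ∃ c : Finset ℝ, c.card ≤ M ∧ ∀ a, T x a → a ∈ c) ∧
      ∀ x, Thin {s | S x s} → ∀ s, S x s → Function.Injective s → ∃ i, T x (s i) := by
  classical
  induction k with
  | zero =>
    intro ι S _
    refine ⟨fun _ _ => False, 0, SA.const _, fun x => ⟨∅, by simp, by simp⟩, ?_⟩
    rintro x ⟨D, _, hD⟩ s hs hinj
    obtain ⟨i, _⟩ := hD s hs hinj
    exact i.elim0
  | succ k ih =>
    intro ι S hS
    -- the family with one more parameter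
    let S' : (Option ι → ℝ) → (Fin k → ℝ) → Prop := fun w s =>
      S (fun i => w (some i)) (Fin.cons (w none) s) ∧
        Function.Injective (Fin.cons (w none) s : Fin (k + 1) → ℝ)
    have hS' : SA₂ S' := by
      apply SA.and
      · exact hS.subst (PolyMap.reindex _) (PolyMap.finCons (PolyFun.coord _) (PolyMap.reindex _))
      · exact SA.injective (PolyMap.finCons (PolyFun.coord _) (PolyMap.reindex _))
    obtain ⟨T1, M1, hT1, hT1b, hT1c⟩ := ih S' hS'
    let Lg : (Option ι → ℝ) → Prop := fun w => ¬ ∀ s, S' w s → ∃ i, T1 w (s i)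
    have hLg : SA {w | Lg w} := by
      apply SA.not
      apply SA.allFin (P := fun w s => S' w s → ∃ i, T1 w (s i))
      apply SA.imp
      · exact hS'
      · apply SA.existsFinite
        intro i
        exact hT1.subst (PolyMap.reindex _) (PolyFun.coord _)
    have hLgc : ∀ w, Lg w → ¬ Thin {s | S' w s} := by
      intro w hw hthin
      apply hw
      intro s hs
      exact hT1c w hthin s hs (fun i j hij => by
        have := @hs.2 i.succ j.succ (by simpa using hij)
        exact Fin.succ_injective _ this)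
    let pr : (ι → ℝ) → ℝ → (Option ι → ℝ) := fun x a o => Option.elim o a x
    have hLg1 : SA₁ (fun x a => Lg (pr x a)) :=
      hLg.subst (PolyMap.optElim (PolyFun.coord _) (PolyMap.reindex _))
    obtain ⟨M2, hM2⟩ := SA.uniform_finiteness (T := fun x a => Lg (pr x a)) hLg1
    let T2 : (ι → ℝ) → ℝ → Prop := fun x a => Lg (pr x a) ∧
      ¬ ∃ l u, l < u ∧ ∀ y, l < y → y < u → Lg (pr x y)
    have hT2 : SA₁ T2 := by
      apply SA.and
      · exact hLg1
      · apply SA.not
        apply SA.ex (P := fun (w : Option ι → ℝ) l => ∃ u, l < u ∧ ∀ y, l < y → y < u →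
          Lg (pr (fun i => w (some i)) y))
        apply SA.ex (P := fun (w : Option (Option ι) → ℝ) u => w none < u ∧ ∀ y, w none < y →
          y < u → Lg (pr (fun i => w (some (some i))) y))
        apply SA.and
        · exact SA.lt (PolyFun.coord _) (PolyFun.coord _)
        · apply SA.all (P := fun (w : Option (Option (Option ι)) → ℝ) y => w (some none) < y →
            y < w none → Lg (pr (fun i => w (some (some (some i)))) y))
          apply SA.imp (SA.lt (PolyFun.coord _) (PolyFun.coord _))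
          apply SA.imp (SA.lt (PolyFun.coord _) (PolyFun.coord _))
          exact hLg.subst (PolyMap.optElim (PolyFun.coord _) (PolyMap.reindex _))
    let U : Fin k → (ι → ℝ) → (Fin k → ℝ) → Prop := fun i x s =>
      ∃ a, ¬ Lg (pr x a) ∧ S' (pr x a) s ∧ T1 (pr x a) (s i)
    have hU : ∀ i, SA₂ (U i) := by
      intro i
      apply SA.ex (P := fun (w : ι ⊕ Fin k → ℝ) a => ¬ Lg (pr (fun i => w (Sum.inl i)) a) ∧
        S' (pr (fun i => w (Sum.inl i)) a) (fun i => w (Sum.inr i)) ∧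
        T1 (pr (fun i => w (Sum.inl i)) a) (w (Sum.inr i)))
      apply SA.and
      · apply SA.not
        exact hLg.subst (PolyMap.optElim (PolyFun.coord _) (PolyMap.reindex _))
      · apply SA.and
        · exact hS'.subst (PolyMap.optElim (PolyFun.coord _) (PolyMap.reindex _))
            (PolyMap.reindex _)
        · exact hT1.subst (PolyMap.optElim (PolyFun.coord _) (PolyMap.reindex _))
            (PolyFun.coord _)
    choose T3 M3 hT3 hT3b hT3c using fun i => ih (U i) (hU i)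
    refine ⟨fun x a => T2 x a ∨ ∃ i, T3 i x a, M2 + ∑ i, M3 i, ?_, ?_, ?_⟩
    · apply SA.or hT2
      apply SA.existsFinite
      exact hT3
    · intro x
      have h2 : ∃ c : Finset ℝ, c.card ≤ M2 ∧ ∀ a, T2 x a → a ∈ c := by
        rcases hM2 x with h | h
        · have hfin : {y | Lg (pr x y)}.Finite := Set.finite_of_encard_le_coe h
          refine ⟨hfin.toFinset, ?_, ?_⟩
          · rw [hfin.encard_eq_coe_toFinset_card] at h
            exact_mod_cast h
          · intro a ha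
            rw [Set.Finite.mem_toFinset]
            exact ha.1
        · refine ⟨∅, by simp, fun a ha => absurd h ha.2⟩
      obtain ⟨c2, hc2, hc2'⟩ := h2
      choose c3 hc3 hc3' using fun i => hT3b i x
      refine ⟨c2 ∪ Finset.univ.biUnion c3, ?_, ?_⟩
      · refine (Finset.card_union_le _ _).trans (add_le_add hc2 ?_)
        exact Finset.card_biUnion_le.trans (Finset.sum_le_sum (fun i _ => hc3 i))
      · rintro a (ha | ⟨i, ha⟩)
        · exact Finset.mem_union_left _ (hc2' a ha)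
        · exact Finset.mem_union_right _ (Finset.mem_biUnion.2 ⟨i, Finset.mem_univ _, hc3' i a ha⟩)
    · intro x hthin s hs hinj
      obtain ⟨D, hD, hDs⟩ := hthin
      -- no interval in Lg
      have hno : ¬ ∃ l u, l < u ∧ ∀ y, l < y → y < u → Lg (pr x y) := by
        rintro ⟨l, u, hlu, hI⟩
        have : ∃ a ∈ Ioo l u, a ∉ D := by
          by_contra hcon
          push Not at hcon
          have h1 : #(Ioo l u) ≤ #D := mk_le_mk_of_subset hcon
          rw [mk_Ioo_real hlu] at h1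
          exact absurd hD (not_lt.2 h1)
        obtain ⟨a, ha, haD⟩ := this
        have hnt := hLgc _ (hI a ha.1 ha.2)
        apply hnt
        refine ⟨D, hD, ?_⟩
        intro s' hs' _
        obtain ⟨i, hi⟩ := hDs _ hs'.1 hs'.2
        rcases Fin.eq_zero_or_eq_succ i with rfl | ⟨j, rfl⟩
        · exact absurd hi haD
        · exact ⟨j, hi⟩
      set a := s 0 with ha
      set s' : Fin k → ℝ := Fin.tail s with hs'
      have hcons : (Fin.cons a s' : Fin (k + 1) → ℝ) = s := Fin.cons_self_tail s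
      by_cases hL : Lg (pr x a)
      · exact ⟨0, Or.inl ⟨hL, hno⟩⟩
      · have hS's : S' (pr x a) s' := by
          constructor
          · change S x (Fin.cons a s')
            rw [hcons]; exact hs
          · change Function.Injective (Fin.cons a s')
            rw [hcons]; exact hinj
        have hL' : ∀ s, S' (pr x a) s → ∃ i, T1 (pr x a) (s i) := by
          by_contra hcon
          exact hL hcon
        obtain ⟨i, hi⟩ := hL' s' hS's
        have hUthin : Thin {s | U i x s} := by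
          refine ⟨D ∪ ⋃ a : D, {y | T1 (pr x a) y}, mk_union_lt hD ?_, ?_⟩
          · apply mk_iUnion_lt hD
            intro a
            obtain ⟨c, _, hc⟩ := hT1b (pr x a)
            exact (c.finite_toSet.subset hc).countable
          · rintro s'' ⟨b, hb1, hb2, hb3⟩ _
            obtain ⟨j, hj⟩ := hDs _ hb2.1 hb2.2
            rcases Fin.eq_zero_or_eq_succ j with rfl | ⟨j, rfl⟩
            · exact ⟨i, Or.inr (Set.mem_iUnion.2 ⟨⟨b, hj⟩, hb3⟩)⟩
            · exact ⟨j, Or.inl hj⟩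
        have hinj' : Function.Injective s' := by
          intro i j hij
          have := @hinj i.succ j.succ hij
          exact Fin.succ_injective _ this
        obtain ⟨j, hj⟩ := hT3c i x hUthin s' ⟨a, hL, hS's, hi⟩ hinj'
        exact ⟨j.succ, Or.inr ⟨i, hj⟩⟩

end Pool.Agent.Lib.MP_ec0437_lc
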