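import Mathlib
import Pool.Agent.Lib.MP_ec0437_lc.Thin

/-!
Existence of a generic function `ℝ → ℝ`.
-/

set_option autoImplicit false

open Set Cardinal

namespace Pool.Agent.Lib.MP_ec0437_lc

section Recursion

variable {J : Type} (r : J → J → Prop) [IsWellOrder J r] (k : J → ℕ)
  (Q : ∀ j, (Fin (k j) → ℝ) → (Fin (k j) → ℝ) → Prop)

open Classical in
/-- the recursive choice of points. -/
noncomputable def pts : ∀ j : J, (Fin (k j) → ℝ) × (Fin (k j) → ℝ) :=
  (IsWellFounded.wf (r := r)).fix (fun j prev =>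
    if h : ∃ p : (Fin (k j) → ℝ) × (Fin (k j) → ℝ), Q j p.1 p.2 ∧ Function.Injective p.1 ∧
        ∀ i, p.1 i ∉ (⋃ j' : {j' // r j' j}, Set.range (prev j'.1 j'.2).1) then h.choose else default)

open Classical in
theorem pts_eq (j : J) : pts r k Q j =
    if h : ∃ p : (Fin (k j) → ℝ) × (Fin (k j) → ℝ), Q j p.1 p.2 ∧ Function.Injective p.1 ∧
        ∀ i, p.1 i ∉ (⋃ j' : {j' // r j' j}, Set.range (pts r k Q j'.1).1) then h.choose
      else default := by
  rw [pts, WellFounded.fix_eq]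

theorem pts_spec (hr : ∀ j, #{j' // r j' j} < 𝔠)
    (hQ : ∀ j, ¬ Thin {s | ∃ t, Q j s t}) (j : J) :
    Q j (pts r k Q j).1 (pts r k Q j).2 ∧ Function.Injective (pts r k Q j).1 ∧
        ∀ i, (pts r k Q j).1 i ∉ (⋃ j' : {j' // r j' j}, Set.range (pts r k Q j'.1).1) := by
  classical
  have h : ∃ p : (Fin (k j) → ℝ) × (Fin (k j) → ℝ), Q j p.1 p.2 ∧ Function.Injective p.1 ∧
        ∀ i, p.1 i ∉ (⋃ j' : {j' // r j' j}, Set.range (pts r k Q j'.1).1) := by
    by_contra hcon
    push Not at hcon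
    apply hQ j
    refine ⟨⋃ j' : {j' // r j' j}, Set.range (pts r k Q j'.1).1, ?_, ?_⟩
    · apply mk_iUnion_lt (hr j)
      intro a
      exact Set.countable_range _
    · rintro s ⟨t, ht⟩ hinj
      exact hcon (s, t) ht hinj
  rw [pts_eq, dif_pos h]
  exact h.choose_spec

end Recursion

theorem exists_generic_aux {J : Type} (hJ : #J ≤ 𝔠) (k : J → ℕ)
    (Q : ∀ j, (Fin (k j) → ℝ) → (Fin (k j) → ℝ) → Prop)
    (hQ : ∀ j, ¬ Thin {s | ∃ t, Q j s t}) :
    ∃ f : ℝ → ℝ, ∀ j, ∃ s, Q j s (fun i => f (s i)) := by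
  classical
  obtain ⟨r, wo, hr⟩ := exists_ord_eq J
  have hlt : ∀ j, #{j' // r j' j} < 𝔠 := by
    intro j
    have h1 := card_typein_lt (r := r) j hr
    rw [← Ordinal.card_typein]
    exact h1.trans_le hJ
  have hspec := pts_spec r k Q hlt hQ
  set p := pts r k Q with hp
  have huniq : ∀ j j' i i', (p j).1 i = (p j').1 i' → j = j' := by
    intro j j' i i' h
    rcases trichotomous_of r j j' with h1 | h1 | h1
    · exfalso
      apply (hspec j').2.2 i'
      rw [← h]
      exact Set.mem_iUnion.2 ⟨⟨j, h1⟩, ⟨i, rfl⟩⟩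
    · exact h1
    · exfalso
      apply (hspec j).2.2 i
      rw [h]
      exact Set.mem_iUnion.2 ⟨⟨j', h1⟩, ⟨i', rfl⟩⟩
  refine ⟨fun x => if h : ∃ q : Σ j, Fin (k j), (p q.1).1 q.2 = x then
    (p h.choose.1).2 h.choose.2 else 0, fun j => ⟨(p j).1, ?_⟩⟩
  have : (fun i => (if h : ∃ q : Σ j, Fin (k j), (p q.1).1 q.2 = (p j).1 i then
    (p h.choose.1).2 h.choose.2 else 0)) = (p j).2 := by
    funext i
    have h : ∃ q : Σ j, Fin (k j), (p q.1).1 q.2 = (p j).1 i := ⟨⟨j, i⟩, rfl⟩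
    rw [dif_pos h]
    have hc := h.choose_spec
    generalize h.choose = q at hc ⊢
    obtain ⟨j', i'⟩ := q
    have hj := huniq j' j i' i hc
    subst hj
    have hi := (hspec j').2.1 hc
    simp only at hi
    subst hi
    rfl
  rw [this]
  exact (hspec j).1

/-- A function is generic if it meets every requirement given by a semialgebraic relation and a
countable set of forbidden parameters. -/
def Generic (f : ℝ → ℝ) : Prop :=
  ∀ (k : ℕ) (S : (Unit → ℝ) → (Fin k → ℝ) → (Fin k → ℝ) → Prop), SA₃ S →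
    ∀ E : Set (Unit → ℝ), E.Countable → ¬ Thin {s | ∃ x, x ∉ E ∧ ∃ t, S x s t} →
      ∃ x, x ∉ E ∧ ∃ s, S x s (fun i => f (s i))

/-- Codes for semialgebraic sets. -/
abbrev Code (ι : Type) : Type := Σ m : ℕ, (Fin m → MvPolynomial ι ℝ) × Set (Fin m → SignType)

def Code.set {ι : Type} (c : Code ι) : Set (ι → ℝ) :=
  {v | (fun i => SignType.sign (MvPolynomial.eval v (c.2.1 i))) ∈ c.2.2}

theorem SA.exists_code {ι : Type} {S : Set (ι → ℝ)} (h : SA S) : ∃ c : Code ι, c.set = S := by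
  classical
  obtain ⟨A, hA⟩ := h
  let e := A.equivFin
  refine ⟨⟨A.card, fun i => (e.symm i : MvPolynomial ι ℝ),
    {σ | ∃ v ∈ S, σ = fun i => SignType.sign (MvPolynomial.eval v (e.symm i : MvPolynomial ι ℝ))}⟩,
    ?_⟩
  ext v
  constructor
  · rintro ⟨v', hv', heq⟩
    refine (hA v v' ?_).2 hv'
    intro a ha
    have := congrFun heq (e ⟨a, ha⟩)
    simpa using this
  · intro hv
    exact ⟨v, hv, rfl⟩

theorem mk_code_le {ι : Type} [Finite ι] : #(Code ι) ≤ 𝔠 := by
  have hMv : #(MvPolynomial ι ℝ) ≤ 𝔠 := by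
    refine (MvPolynomial.cardinalMk_le_max).trans ?_
    simp only [mk_real, sup_le_iff]
    exact ⟨⟨le_rfl, mk_le_aleph0.trans aleph0_le_continuum⟩, aleph0_le_continuum⟩
  rw [mk_sigma]
  calc Cardinal.sum (fun m : ℕ => #((Fin m → MvPolynomial ι ℝ) × Set (Fin m → SignType)))
      ≤ Cardinal.sum (fun m : ℕ => (𝔠 : Cardinal.{0})) := by
        apply sum_le_sum
        intro m
        rw [mk_prod, lift_id, lift_id]
        calc #(Fin m → MvPolynomial ι ℝ) * #(Set (Fin m → SignType)) ≤ 𝔠 * 𝔠 := by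
              apply mul_le_mul'
              · calc #(Fin m → MvPolynomial ι ℝ) ≤ #(ℕ → MvPolynomial ι ℝ) := by
                      apply mk_le_of_injective (f := fun g => fun n => if h : n < m then
                        g ⟨n, h⟩ else 0)
                      intro g g' hgg
                      funext i
                      have := congrFun hgg i.1
                      simpa using this
                  _ = #(MvPolynomial ι ℝ) ^ (ℵ₀ : Cardinal.{0}) := by simp
                  _ ≤ 𝔠 ^ (ℵ₀ : Cardinal.{0}) := power_le_power_right hMv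
                  _ = 𝔠 := continuum_power_aleph0
              · exact (mk_le_aleph0).trans aleph0_le_continuum
          _ = 𝔠 := continuum_mul_self
    _ = #ℕ * 𝔠 := by rw [sum_const']
    _ = 𝔠 := by simp

theorem exists_generic : ∃ f : ℝ → ℝ, Generic f := by
  classical
  let Cd : Type := Σ k : ℕ, Code (Unit ⊕ (Fin k ⊕ Fin k)) × Option (ℕ → (Unit → ℝ))
  let E : Option (ℕ → (Unit → ℝ)) → Set (Unit → ℝ) := fun o => match o with
    | none => ∅
    | some e => Set.range e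
  let S : ∀ c : Cd, (Unit → ℝ) → (Fin c.1 → ℝ) → (Fin c.1 → ℝ) → Prop := fun c x s t =>
    Sum.elim x (Sum.elim s t) ∈ c.2.1.set
  let Q : ∀ c : Cd, (Fin c.1 → ℝ) → (Fin c.1 → ℝ) → Prop := fun c s t =>
    ∃ x, x ∉ E c.2.2 ∧ S c x s t
  let J : Type := {c : Cd // ¬ Thin {s | ∃ t, Q c s t}}
  have hCd : #Cd ≤ 𝔠 := by
    rw [mk_sigma]
    calc Cardinal.sum (fun k : ℕ => #(Code (Unit ⊕ (Fin k ⊕ Fin k)) × Option (ℕ → (Unit → ℝ))))
        ≤ Cardinal.sum (fun m : ℕ => (𝔠 : Cardinal.{0})) := by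
          apply sum_le_sum
          intro m
          rw [mk_prod, lift_id, lift_id]
          calc #(Code (Unit ⊕ (Fin m ⊕ Fin m))) * #(Option (ℕ → (Unit → ℝ))) ≤ 𝔠 * 𝔠 := by
                apply mul_le_mul'
                · exact mk_code_le
                · have h1 : #(ℕ → (Unit → ℝ)) = 𝔠 := by
                    simp [mk_real, continuum_power_aleph0]
                  rw [mk_option, h1, add_one_eq aleph0_le_continuum]
            _ = 𝔠 := continuum_mul_self
      _ = #ℕ * 𝔠 := by rw [sum_const']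
      _ = 𝔠 := by simp
  have hJ : #J ≤ 𝔠 := (mk_subtype_le _).trans hCd
  obtain ⟨f, hf⟩ := exists_generic_aux hJ (fun j => j.1.1) (fun j => Q j.1) (fun j => j.2)
  refine ⟨f, ?_⟩
  intro k R hR E₀ hE₀ hthin
  obtain ⟨o, ho⟩ : ∃ o, E o = E₀ := by
    rcases E₀.eq_empty_or_nonempty with h | h
    · exact ⟨none, h.symm⟩
    · obtain ⟨e, he⟩ := hE₀.exists_eq_range h
      exact ⟨some e, he.symm⟩
  obtain ⟨c, hc⟩ := hR.exists_code
  let cd : Cd := ⟨k, c, o⟩
  have hS : ∀ x s t, S cd x s t ↔ R x s t := by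
    intro x s t
    change Sum.elim x (Sum.elim s t) ∈ c.set ↔ _
    rw [hc]
    rfl
  have hj : ¬ Thin {s | ∃ t, Q cd s t} := by
    intro h
    apply hthin
    apply h.mono
    rintro s ⟨x, hx, t, ht⟩
    exact ⟨t, x, by rw [ho]; exact hx, (hS x s t).2 ht⟩
  obtain ⟨s, x, hx, hs⟩ := hf ⟨cd, hj⟩
  refine ⟨x, by rw [← ho]; exact hx, s, ?_⟩
  exact (hS x s _).1 hs

end Pool.Agent.Lib.MP_ec0437_lc
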