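import Mathlib
import Pool.Agent.Lib.MP_ec0437_lc.Generic

/-!
Existential sets over a generic function; model completeness.
-/

set_option autoImplicit false

open Set Cardinal

namespace Pool.Agent.Lib.MP_ec0437_lc

/-- Existential sets: `x ∈ X ↔ ∃ s, S x s (f ∘ s)` with `S` semialgebraic. -/
def IsE (f : ℝ → ℝ) {ι : Type} (X : Set (ι → ℝ)) : Prop :=
  ∃ (k : ℕ) (S : (ι → ℝ) → (Fin k → ℝ) → (Fin k → ℝ) → Prop), SA₃ S ∧
    ∀ x, x ∈ X ↔ ∃ s, S x s (fun i => f (s i))

namespace IsE

variable {f : ℝ → ℝ} {ι κ μ : Type}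

theorem of_SA {X : Set (ι → ℝ)} (h : SA X) : IsE f X := by
  refine ⟨0, fun x _ _ => x ∈ X, ?_, fun x => ⟨fun h => ⟨Fin.elim0, h⟩, fun ⟨_, h⟩ => h⟩⟩
  exact SA.subst (S := fun x => x ∈ X) h (PolyMap.reindex _)

theorem preimage {g : (ι → ℝ) → (κ → ℝ)} (hg : PolyMap g) {X : Set (κ → ℝ)} (h : IsE f X) :
    IsE f {v | g v ∈ X} := by
  obtain ⟨k, S, hS, hX⟩ := h
  refine ⟨k, fun v s t => S (g v) s t, ?_, fun x => hX (g x)⟩
  exact hS.subst (hg.comp (PolyMap.reindex _)) (PolyMap.reindex _) (PolyMap.reindex _)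

theorem and {P Q : (ι → ℝ) → Prop} (hP : IsE f {v | P v}) (hQ : IsE f {v | Q v}) :
    IsE f {v | P v ∧ Q v} := by
  obtain ⟨k, S, hS, hX⟩ := hP
  obtain ⟨l, T, hT, hY⟩ := hQ
  refine ⟨k + l, fun x s t => S x (fun i => s (Fin.castAdd l i)) (fun i => t (Fin.castAdd l i)) ∧
    T x (fun i => s (Fin.natAdd k i)) (fun i => t (Fin.natAdd k i)), ?_, ?_⟩
  · apply SA.and
    · exact hS.subst (PolyMap.reindex _) (PolyMap.reindex _) (PolyMap.reindex _)
    · exact hT.subst (PolyMap.reindex _) (PolyMap.reindex _) (PolyMap.reindex _)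
  · intro x
    constructor
    · rintro ⟨hp, hq⟩
      obtain ⟨s, hs⟩ := (hX x).1 hp
      obtain ⟨s', hs'⟩ := (hY x).1 hq
      refine ⟨Fin.append s s', ?_, ?_⟩
      · simpa using hs
      · simpa using hs'
    · rintro ⟨s, h1, h2⟩
      exact ⟨(hX x).2 ⟨_, h1⟩, (hY x).2 ⟨_, h2⟩⟩

theorem or {P Q : (ι → ℝ) → Prop} (hP : IsE f {v | P v}) (hQ : IsE f {v | Q v}) :
    IsE f {v | P v ∨ Q v} := by
  obtain ⟨k, S, hS, hX⟩ := hP
  obtain ⟨l, T, hT, hY⟩ := hQ
  refine ⟨k + l, fun x s t => S x (fun i => s (Fin.castAdd l i)) (fun i => t (Fin.castAdd l i)) ∨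
    T x (fun i => s (Fin.natAdd k i)) (fun i => t (Fin.natAdd k i)), ?_, ?_⟩
  · apply SA.or
    · exact hS.subst (PolyMap.reindex _) (PolyMap.reindex _) (PolyMap.reindex _)
    · exact hT.subst (PolyMap.reindex _) (PolyMap.reindex _) (PolyMap.reindex _)
  · intro x
    constructor
    · rintro (hp | hq)
      · obtain ⟨s, hs⟩ := (hX x).1 hp
        refine ⟨Fin.append s (fun _ => 0), Or.inl ?_⟩
        simpa using hs
      · obtain ⟨s', hs'⟩ := (hY x).1 hq
        refine ⟨Fin.append (fun _ => 0) s', Or.inr ?_⟩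
        simpa using hs'
    · rintro ⟨s, h1 | h2⟩
      · exact Or.inl ((hX x).2 ⟨_, h1⟩)
      · exact Or.inr ((hY x).2 ⟨_, h2⟩)

theorem ex {P : (ι → ℝ) → ℝ → Prop}
    (h : IsE f {w : Option ι → ℝ | P (fun i => w (some i)) (w none)}) :
    IsE f {v | ∃ y, P v y} := by
  obtain ⟨k, S, hS, hX⟩ := h
  refine ⟨k, fun x s t => ∃ y, S (fun o => Option.elim o y x) s t, ?_, ?_⟩
  · apply SA.ex (P := fun (w : ι ⊕ (Fin k ⊕ Fin k) → ℝ) y =>
      S (fun o => Option.elim o y (fun i => w (Sum.inl i))) (fun i => w (Sum.inr (Sum.inl i)))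
        (fun i => w (Sum.inr (Sum.inr i))))
    exact hS.subst (PolyMap.optElim (PolyFun.coord _) (PolyMap.reindex _)) (PolyMap.reindex _)
      (PolyMap.reindex _)
  · intro x
    constructor
    · rintro ⟨y, hy⟩
      obtain ⟨s, hs⟩ := (hX (fun o => Option.elim o y x)).1 hy
      exact ⟨s, y, hs⟩
    · rintro ⟨s, y, hs⟩
      exact ⟨y, (hX (fun o => Option.elim o y x)).2 ⟨s, hs⟩⟩

theorem exFin {k : ℕ} : ∀ {P : (ι → ℝ) → (Fin k → ℝ) → Prop},
    IsE f {w : ι ⊕ Fin k → ℝ | P (fun i => w (Sum.inl i)) (fun i => w (Sum.inr i))} →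
    IsE f {v | ∃ u, P v u} := by
  induction k with
  | zero =>
    intro P h
    have := preimage (g := fun v : ι → ℝ => Sum.elim v (Fin.elim0 : Fin 0 → ℝ))
      (by rintro (i | i); exacts [PolyFun.coord i, i.elim0]) h
    refine (congrArg (IsE f) ?_).mp this
    ext v
    constructor
    · intro h
      exact ⟨_, h⟩
    · rintro ⟨u, hu⟩
      have : u = fun i : Fin 0 => (Sum.elim v (Fin.elim0 : Fin 0 → ℝ)) (Sum.inr i) :=
        Subsingleton.elim _ _
      rw [this] at hu
      exact hu
  | succ k ih =>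
    intro P h
    have h1 : IsE f {v : ι → ℝ | ∃ u : Fin k → ℝ, ∃ y : ℝ, P v (Fin.cons y u)} := by
      apply ih
      apply ex (P := fun w y => P (fun i => w (Sum.inl i)) (Fin.cons y (fun i => w (Sum.inr i))))
      have := preimage (g := fun w : Option (ι ⊕ Fin k) → ℝ =>
        Sum.elim (fun i => w (some (Sum.inl i)))
          (Fin.cons (w none) (fun i => w (some (Sum.inr i))) : Fin (k + 1) → ℝ))
        (by
          rintro (i | i)
          · exact PolyFun.coord _
          · refine Fin.cases ?_ (fun j => ?_) i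
            · exact PolyFun.coord _
            · exact PolyFun.coord _) h
      exact this
    refine (congrArg (IsE f) ?_).mp h1
    ext v
    constructor
    · rintro ⟨u, y, h⟩
      exact ⟨_, h⟩
    · rintro ⟨u, hu⟩
      exact ⟨Fin.tail u, u 0, by rw [Fin.cons_self_tail]; exact hu⟩

theorem graph {g h : (ι → ℝ) → ℝ} (hg : PolyFun g) (hh : PolyFun h) :
    IsE f {v | f (g v) = h v} := by
  refine ⟨1, fun x s t => s 0 = g x ∧ t 0 = h x, ?_, ?_⟩
  · apply SA.and
    · exact SA.eq (PolyFun.coord _) (hg.comp (PolyMap.reindex _))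
    · exact SA.eq (PolyFun.coord _) (hh.comp (PolyMap.reindex _))
  · intro x
    constructor
    · intro hx
      exact ⟨fun _ => g x, rfl, hx⟩
    · rintro ⟨s, h1, h2⟩
      change f (g x) = h x
      rw [← h1]; exact h2

theorem forallFin {k : ℕ} {P : Fin k → (ι → ℝ) → Prop} (h : ∀ a, IsE f {v | P a v}) :
    IsE f {v | ∀ a, P a v} := by
  induction k with
  | zero =>
    refine of_SA ((congrArg SA ?_).mp (SA.const True))
    ext v
    exact ⟨fun _ a => a.elim0, fun _ => trivial⟩
  | succ k ih =>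
    have := (h 0).and (ih (P := fun a => P a.succ) (fun a => h a.succ))
    refine (congrArg (IsE f) ?_).mp this
    ext v
    exact (Fin.forall_fin_succ (P := fun a => P a v)).symm

theorem existsFin {k : ℕ} {P : Fin k → (ι → ℝ) → Prop} (h : ∀ a, IsE f {v | P a v}) :
    IsE f {v | ∃ a, P a v} := by
  induction k with
  | zero =>
    refine of_SA ((congrArg SA ?_).mp (SA.const False))
    ext v
    exact ⟨fun h => h.elim, fun ⟨a, _⟩ => a.elim0⟩
  | succ k ih =>
    have := (h 0).or (ih (P := fun a => P a.succ) (fun a => h a.succ))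
    refine (congrArg (IsE f) ?_).mp this
    ext v
    exact (Fin.exists_fin_succ (P := fun a => P a v)).symm

/-- Bounded universal quantification over the (uniformly finitely many) values of `T`. -/
theorem forall_bounded {T : (ι → ℝ) → ℝ → Prop} (hT : SA₁ T) {M : ℕ}
    (hM : ∀ x, ∃ c : Finset ℝ, c.card ≤ M ∧ ∀ a, T x a → a ∈ c)
    {Y : (ι → ℝ) → ℝ → ℝ → Prop}
    (hY : IsE f {w : Option (Option ι) → ℝ |
      Y (fun i => w (some (some i))) (w (some none)) (w none)}) :
    IsE f {x | ∀ a, T x a → Y x a (f a)} := by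
  have h1 : IsE f {x : ι → ℝ | ∃ c : Fin M → ℝ, (∀ a, T x a → ∃ j, c j = a) ∧
      ∀ j, (¬ T x (c j) ∨ ∃ b, f (c j) = b ∧ Y x (c j) b)} := by
    apply exFin
    apply and
    · apply of_SA
      apply SA.all (P := fun (w : ι ⊕ Fin M → ℝ) a => T (fun i => w (Sum.inl i)) a →
        ∃ j, w (Sum.inr j) = a)
      apply SA.imp
      · exact hT.subst (PolyMap.reindex _) (PolyFun.coord _)
      · apply SA.existsFinite
        intro j
        exact SA.eq (PolyFun.coord _) (PolyFun.coord _)
    · apply forallFin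
      intro j
      apply or
      · apply of_SA
        apply SA.not
        exact hT.subst (PolyMap.reindex _) (PolyFun.coord _)
      · apply ex (P := fun (w : ι ⊕ Fin M → ℝ) b => f (w (Sum.inr j)) = b ∧
          Y (fun i => w (Sum.inl i)) (w (Sum.inr j)) b)
        apply and
        · exact graph (PolyFun.coord _) (PolyFun.coord _)
        · have := preimage (g := fun w : Option (ι ⊕ Fin M) → ℝ => fun o : Option (Option ι) =>
            Option.elim o (w none) (fun o' => Option.elim o' (w (some (Sum.inr j)))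
              (fun i => w (some (Sum.inl i)))))
            (PolyMap.optElim (PolyFun.coord _) (PolyMap.optElim (PolyFun.coord _)
              (PolyMap.reindex _))) hY
          exact this
  refine (congrArg (IsE f) ?_).mp h1
  ext x
  constructor
  · rintro ⟨c, hc1, hc2⟩ a ha
    obtain ⟨j, rfl⟩ := hc1 a ha
    rcases hc2 j with h | ⟨b, hb, hY⟩
    · exact absurd ha h
    · rw [hb]; exact hY
  · intro hx
    obtain ⟨c, hcM, hc⟩ := hM x
    -- enumerate c by Fin M
    refine ⟨fun j => if h : j.1 < c.card then (c.equivFin.symm ⟨j.1, h⟩ : ℝ) else 0, ?_, ?_⟩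
    · intro a ha
      have hac := hc a ha
      refine ⟨⟨(c.equivFin ⟨a, hac⟩).1, (c.equivFin ⟨a, hac⟩).2.trans_le hcM⟩, ?_⟩
      simp
    · intro j
      by_cases h : T x (if h : j.1 < c.card then (c.equivFin.symm ⟨j.1, h⟩ : ℝ) else 0)
      · right
        exact ⟨_, rfl, hx _ h⟩
      · left; exact h

end IsE

/-- The plain genericity property. -/
theorem Generic.plain {f : ℝ → ℝ} (hf : Generic f) {k : ℕ}
    {S : (Fin k → ℝ) → (Fin k → ℝ) → Prop}
    (hS : SA {w : Fin k ⊕ Fin k → ℝ | S (fun i => w (Sum.inl i)) (fun i => w (Sum.inr i))})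
    (hthin : ¬ Thin {s | ∃ t, S s t}) : ∃ s, S s (fun i => f (s i)) := by
  obtain ⟨x, _, s, hs⟩ := hf k (fun _ s t => S s t)
    (SA.subst (S := fun w : Fin k ⊕ Fin k → ℝ =>
      S (fun i => w (Sum.inl i)) (fun i => w (Sum.inr i))) hS
      (g₁ := fun w : Unit ⊕ (Fin k ⊕ Fin k) → ℝ => fun i => w (Sum.inr i)) (PolyMap.reindex _))
    ∅ Set.countable_empty (by
      intro h
      apply hthin
      apply h.mono
      rintro s ⟨t, ht⟩
      exact ⟨fun _ => 0, by simp, t, ht⟩)
  exact ⟨s, hs⟩

/-- Non-injective tuples can be merged. -/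
theorem exists_merge {k : ℕ} {s : Fin (k + 1) → ℝ} (h : ¬ Function.Injective s) :
    ∃ (i : Fin (k + 1)) (j : Fin k), s = Fin.insertNth i (Fin.removeNth i s j) (Fin.removeNth i s) := by
  rw [Function.Injective] at h
  push Not at h
  obtain ⟨a, b, hab, hne⟩ := h
  rcases Fin.eq_self_or_eq_succAbove a b with h | ⟨j, hj⟩
  · exact absurd h.symm hne
  · refine ⟨a, j, ?_⟩
    have h1 : Fin.removeNth a s j = s a := by
      rw [Fin.removeNth, ← hj, hab]
    rw [h1, Fin.insertNth_self_removeNth]

theorem comp_insertNth {k : ℕ} (f : ℝ → ℝ) (i : Fin (k + 1)) (a : ℝ) (s : Fin k → ℝ) :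
    (fun j => f ((Fin.insertNth i a s : Fin (k + 1) → ℝ) j)) =
      (Fin.insertNth i (f a) (fun j => f (s j)) : Fin (k + 1) → ℝ) := by
  funext j
  rcases Fin.eq_self_or_eq_succAbove i j with rfl | ⟨l, rfl⟩
  · simp
  · simp

/-- Complements of existential sets are existential. -/
theorem compl_aux {f : ℝ → ℝ} (hf : Generic f) (k : ℕ) : ∀ {ι : Type}
    (S : (ι → ℝ) → (Fin k → ℝ) → (Fin k → ℝ) → Prop), SA₃ S →
    IsE f {x | ¬ ∃ s, S x s (fun i => f (s i))} := by
  induction k with
  | zero =>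
    intro ι S hS
    have h1 : SA {x : ι → ℝ | ¬ S x Fin.elim0 Fin.elim0} := by
      apply SA.not
      exact hS.subst PolyMap.id (PolyMap.const _) (PolyMap.const _)
    refine (congrArg (IsE f) ?_).mp (IsE.of_SA h1)
    ext x
    apply not_congr
    constructor
    · intro h
      refine ⟨Fin.elim0, ?_⟩
      have h2 : (fun i : Fin 0 => f ((Fin.elim0 : Fin 0 → ℝ) i)) = Fin.elim0 :=
        Subsingleton.elim _ _
      rw [h2]
      exact h
    · rintro ⟨s, hs⟩
      have h1 : s = Fin.elim0 := Subsingleton.elim _ _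
      have h2 : (fun i : Fin 0 => f (s i)) = Fin.elim0 := Subsingleton.elim _ _
      rw [h2, h1] at hs
      exact hs
  | succ k ih =>
    intro ι S hS
    let V : (ι → ℝ) → (Fin (k + 1) → ℝ) → Prop := fun x s => ∃ t, S x s t
    have hV : SA₂ V := by
      apply SA.exFin (P := fun (w : ι ⊕ Fin (k + 1) → ℝ) t =>
        S (fun i => w (Sum.inl i)) (fun i => w (Sum.inr i)) t)
      exact hS.subst (PolyMap.reindex _) (PolyMap.reindex _) (PolyMap.reindex _)
    obtain ⟨T, M, hT, hTb, hTc⟩ := lemmaA (k + 1) V hV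
    let A : (ι → ℝ) → Prop := fun x => ¬ ∀ s, V x s → Function.Injective s → ∃ i, T x (s i)
    have hA : SA {x | A x} := by
      apply SA.not
      apply SA.allFin (P := fun x s => V x s → Function.Injective s → ∃ i, T x (s i))
      apply SA.imp
      · exact hV
      · apply SA.imp
        · exact SA.injective (PolyMap.reindex _)
        · apply SA.existsFinite
          intro i
          exact hT.subst (PolyMap.reindex _) (PolyFun.coord _)
    have hAE : ∀ x, A x → ∃ s, S x s (fun i => f (s i)) := by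
      intro x hx
      apply hf.plain (S := fun s t => S x s t)
      · exact hS.subst (PolyMap.const x) (PolyMap.reindex _) (PolyMap.reindex _)
      · intro hthin
        exact hx (hTc x hthin)
    -- the three pieces
    have hB : ∀ i : Fin (k + 1), IsE f {x | ∀ a, T x a →
        ¬ ∃ s' : Fin k → ℝ, S x (Fin.insertNth i a s') (Fin.insertNth i (f a)
          (fun j => f (s' j)))} := by
      intro i
      apply IsE.forall_bounded (Y := fun x a b => ¬ ∃ s' : Fin k → ℝ,
        S x (Fin.insertNth i a s') (Fin.insertNth i b (fun j => f (s' j)))) hT hTb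
      apply ih (fun (w : Option (Option ι) → ℝ) s t =>
        S (fun i => w (some (some i))) (Fin.insertNth i (w (some none)) s)
          (Fin.insertNth i (w none) t))
      exact hS.subst (PolyMap.reindex _)
        (PolyMap.insertNth i (PolyFun.coord _) (PolyMap.reindex _))
        (PolyMap.insertNth i (PolyFun.coord _) (PolyMap.reindex _))
    have hC : ∀ (i : Fin (k + 1)) (j : Fin k), IsE f {x | ¬ ∃ s' : Fin k → ℝ,
        S x (Fin.insertNth i (s' j) s') (Fin.insertNth i (f (s' j)) (fun j => f (s' j)))} := by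
      intro i j
      apply ih (fun (x : ι → ℝ) s t => S x (Fin.insertNth i (s j) s) (Fin.insertNth i (t j) t))
      exact hS.subst (PolyMap.reindex _)
        (PolyMap.insertNth i (PolyFun.coord _) (PolyMap.reindex _))
        (PolyMap.insertNth i (PolyFun.coord _) (PolyMap.reindex _))
    have hall := ((IsE.of_SA (f := f) hA.not).and (IsE.forallFin hB)).and
      (IsE.forallFin (fun i => IsE.forallFin (hC i)))
    refine (congrArg (IsE f) ?_).mp hall
    ext x
    constructor
    · rintro ⟨⟨h1, h2⟩, h3⟩ ⟨s, hs⟩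
      have h1' : ∀ s, V x s → Function.Injective s → ∃ i, T x (s i) := by
        by_contra hcon
        exact h1 hcon
      by_cases hinj : Function.Injective s
      · obtain ⟨i, hi⟩ := h1' s ⟨_, hs⟩ hinj
        apply h2 i (s i) hi
        refine ⟨Fin.removeNth i s, ?_⟩
        rw [Fin.insertNth_self_removeNth]
        have := comp_insertNth f i (s i) (Fin.removeNth i s)
        rw [Fin.insertNth_self_removeNth] at this
        rw [← this]
        exact hs
      · obtain ⟨i, j, hij⟩ := exists_merge hinj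
        apply h3 i j
        refine ⟨Fin.removeNth i s, ?_⟩
        have := comp_insertNth f i (Fin.removeNth i s j) (Fin.removeNth i s)
        rw [← hij] at this
        rw [← this, ← hij]
        exact hs
    · intro hx
      refine ⟨⟨fun h1 => hx (hAE x h1), ?_⟩, ?_⟩
      · rintro i a _ ⟨s', hs'⟩
        apply hx
        refine ⟨Fin.insertNth i a s', ?_⟩
        rw [comp_insertNth]
        exact hs'
      · rintro i j ⟨s', hs'⟩
        apply hx
        refine ⟨Fin.insertNth i (s' j) s', ?_⟩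
        rw [comp_insertNth]
        exact hs'

theorem IsE.not {f : ℝ → ℝ} (hf : Generic f) {ι : Type} {P : (ι → ℝ) → Prop}
    (h : IsE f {v | P v}) : IsE f {v | ¬ P v} := by
  obtain ⟨k, S, hS, hX⟩ := h
  refine (congrArg (IsE f) ?_).mp (compl_aux hf k S hS)
  ext x
  exact not_congr (hX x).symm

theorem IsE.all {f : ℝ → ℝ} (hf : Generic f) {ι : Type} {P : (ι → ℝ) → ℝ → Prop}
    (h : IsE f {w : Option ι → ℝ | P (fun i => w (some i)) (w none)}) :
    IsE f {v | ∀ y, P v y} := by
  have := IsE.not hf (IsE.ex (P := fun v y => ¬ P v y) (IsE.not hf h))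
  refine (congrArg (IsE f) ?_).mp this
  ext v
  simp

end Pool.Agent.Lib.MP_ec0437_lc
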