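import Mathlib
import Pool.Agent.Lib.MP_ec0437_lc.IsE

/-!
Countable existential subsets of the line are finite.
-/

set_option autoImplicit false

open Set Cardinal

namespace Pool.Agent.Lib.MP_ec0437_lc

theorem SA.finite_of_countable {X : Set (Unit → ℝ)} (h : SA X) (hc : X.Countable) : X.Finite := by
  have h1 : SA {w : Option Empty → ℝ | (fun _ : Unit => w none) ∈ X} :=
    SA.preimage (fun _ => PolyFun.coord _) h
  obtain ⟨M, hM⟩ := SA.uniform_finiteness (ι := Empty)
    (T := fun _ y => (fun _ : Unit => y) ∈ X) h1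
  have hcount : {y : ℝ | (fun _ : Unit => y) ∈ X}.Countable :=
    hc.preimage_of_injOn (f := fun y : ℝ => (fun _ : Unit => y))
      (fun a _ b _ hab => congrFun hab ())
  have hfin : {y : ℝ | (fun _ : Unit => y) ∈ X}.Finite := by
    rcases hM Empty.elim with h | ⟨a, b, hab, hI⟩
    · exact Set.finite_of_encard_le_coe h
    · exfalso
      have : (Ioo a b).Countable := hcount.mono (fun y hy => hI y hy.1 hy.2)
      have h2 := this.le_aleph0
      rw [mk_Ioo_real hab] at h2
      exact absurd h2 (not_le.2 aleph0_lt_continuum)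
  have : X = (fun y : ℝ => (fun _ : Unit => y)) '' {y : ℝ | (fun _ : Unit => y) ∈ X} := by
    ext x
    constructor
    · intro hx
      exact ⟨x (), hx, rfl⟩
    · rintro ⟨y, hy, rfl⟩
      exact hy
  rw [this]
  exact hfin.image _

theorem countable_aux {f : ℝ → ℝ} (hf : Generic f) (k : ℕ) :
    ∀ (S : (Unit → ℝ) → (Fin k → ℝ) → (Fin k → ℝ) → Prop), SA₃ S →
    {x | ∃ s, S x s (fun i => f (s i))}.Countable →
    {x | ∃ s, S x s (fun i => f (s i))}.Finite := by
  classical
  induction k with
  | zero =>
    intro S hS hc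
    have h1 : SA {x : Unit → ℝ | S x Fin.elim0 Fin.elim0} :=
      hS.subst PolyMap.id (PolyMap.const _) (PolyMap.const _)
    have heq : {x | ∃ s, S x s (fun i => f (s i))} = {x : Unit → ℝ | S x Fin.elim0 Fin.elim0} := by
      ext x
      constructor
      · rintro ⟨s, hs⟩
        have h1 : s = Fin.elim0 := Subsingleton.elim _ _
        have h2 : (fun i : Fin 0 => f (s i)) = Fin.elim0 := Subsingleton.elim _ _
        rw [h2, h1] at hs
        exact hs
      · intro h
        refine ⟨Fin.elim0, ?_⟩
        have h2 : (fun i : Fin 0 => f ((Fin.elim0 : Fin 0 → ℝ) i)) = Fin.elim0 :=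
          Subsingleton.elim _ _
        rw [h2]
        exact h
    rw [heq] at hc ⊢
    exact h1.finite_of_countable hc
  | succ k ih =>
    intro S hS hc
    set E : Set (Unit → ℝ) := {x | ∃ s, S x s (fun i => f (s i))} with hE
    let V : (Unit → ℝ) → (Fin (k + 1) → ℝ) → Prop := fun x s => ∃ t, S x s t
    have hV : SA₂ V := by
      apply SA.exFin (P := fun (w : Unit ⊕ Fin (k + 1) → ℝ) t =>
        S (fun i => w (Sum.inl i)) (fun i => w (Sum.inr i)) t)
      exact hS.subst (PolyMap.reindex _) (PolyMap.reindex _) (PolyMap.reindex _)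
    obtain ⟨T, M, hT, hTb, hTc⟩ := lemmaA (k + 1) V hV
    let A : (Unit → ℝ) → Prop := fun x => ¬ ∀ s, V x s → Function.Injective s → ∃ i, T x (s i)
    have hA : SA {x | A x} := by
      apply SA.not
      apply SA.allFin (P := fun x s => V x s → Function.Injective s → ∃ i, T x (s i))
      apply SA.imp
      · exact hV
      · apply SA.imp
        · exact SA.injective (PolyMap.reindex _)
        · apply SA.existsFinite
          intro i
          exact hT.subst (PolyMap.reindex _) (PolyFun.coord _)
    have hAE : ∀ x, A x → x ∈ E := by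
      intro x hx
      apply hf.plain (S := fun s t => S x s t)
      · exact hS.subst (PolyMap.const x) (PolyMap.reindex _) (PolyMap.reindex _)
      · intro hthin
        exact hx (hTc x hthin)
    have hAfin : {x | A x}.Finite := hA.finite_of_countable (hc.mono hAE)
    -- remove A
    let S' : (Unit → ℝ) → (Fin (k + 1) → ℝ) → (Fin (k + 1) → ℝ) → Prop := fun x s t =>
      S x s t ∧ ¬ A x
    have hS' : SA₃ S' := by
      apply SA.and hS
      exact hA.not.subst (S := fun x => ¬ A x) (PolyMap.reindex _)
    let V' : (Fin (k + 1) → ℝ) → Prop := fun s => ∃ x t, S' x s t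
    have hV' : SA {s | V' s} := by
      have : SA {s : Fin (k + 1) → ℝ | ∃ y : ℝ, ∃ t, S' (fun _ => y) s t} := by
        apply SA.ex (P := fun (s : Fin (k + 1) → ℝ) (y : ℝ) => ∃ t, S' (fun _ => y) s t)
        apply SA.exFin (P := fun (w : Option (Fin (k + 1)) → ℝ) t =>
          S' (fun _ => w none) (fun i => w (some i)) t)
        exact hS'.subst (fun _ => PolyFun.coord _) (PolyMap.reindex _) (PolyMap.reindex _)
      refine (congrArg SA ?_).mp this
      ext s
      constructor
      · rintro ⟨y, t, h⟩
        exact ⟨_, t, h⟩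
      · rintro ⟨x, t, h⟩
        exact ⟨x (), t, h⟩
    -- V' is thin
    have hthin : Thin {s | V' s} := by
      by_contra hnt
      have hnt2 : ¬ Thin {s | ∃ x, x ∉ E ∧ ∃ t, S' x s t} := by
        rintro ⟨D, hD, hDs⟩
        apply hnt
        have hEc : #E < 𝔠 := (hc.le_aleph0).trans_lt aleph0_lt_continuum
        refine ⟨D ∪ ⋃ x : E, {y | T x y}, mk_union_lt hD ?_, ?_⟩
        · apply mk_iUnion_lt hEc
          intro x
          obtain ⟨c, _, hcc⟩ := hTb x
          exact (c.finite_toSet.subset hcc).countable
        · rintro s ⟨x, t, hst, hxA⟩ hinj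
          by_cases hxE : x ∈ E
          · have h1 : ∀ s, V x s → Function.Injective s → ∃ i, T x (s i) := by
              by_contra hcon
              exact hxA hcon
            obtain ⟨i, hi⟩ := h1 s ⟨t, hst⟩ hinj
            exact ⟨i, Or.inr (Set.mem_iUnion.2 ⟨⟨x, hxE⟩, hi⟩)⟩
          · obtain ⟨i, hi⟩ := hDs s ⟨x, hxE, t, hst, hxA⟩ hinj
            exact ⟨i, Or.inl hi⟩
      obtain ⟨x, hxE, s, hs, _⟩ := hf (k + 1) S' hS' E hc hnt2
      exact hxE ⟨s, hs⟩
    obtain ⟨T', M', _, hT'b, hT'c⟩ := lemmaA (k + 1) (ι := Empty) (fun _ s => V' s)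
      (hV'.subst (S := fun s => V' s) (PolyMap.reindex _))
    obtain ⟨c, _, hcc⟩ := hT'b Empty.elim
    have hcov : ∀ s, V' s → Function.Injective s → ∃ i, s i ∈ c := by
      intro s hs hinj
      obtain ⟨i, hi⟩ := hT'c Empty.elim hthin s hs hinj
      exact ⟨i, hcc _ hi⟩
    -- pieces
    have hB : ∀ (i : Fin (k + 1)) (d : ℝ), {x | ∃ s' : Fin k → ℝ,
        S x (Fin.insertNth i d s') (Fin.insertNth i (f d) (fun j => f (s' j)))}.Finite := by
      intro i d
      apply ih (fun x s t => S x (Fin.insertNth i d s) (Fin.insertNth i (f d) t))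
      · exact hS.subst (PolyMap.reindex _)
          (PolyMap.insertNth i (PolyFun.const _) (PolyMap.reindex _))
          (PolyMap.insertNth i (PolyFun.const _) (PolyMap.reindex _))
      · apply hc.mono
        rintro x ⟨s', hs'⟩
        refine ⟨Fin.insertNth i d s', ?_⟩
        rw [comp_insertNth]
        exact hs'
    have hC : ∀ (i : Fin (k + 1)) (j : Fin k), {x | ∃ s' : Fin k → ℝ,
        S x (Fin.insertNth i (s' j) s')
          (Fin.insertNth i (f (s' j)) (fun j => f (s' j)))}.Finite := by
      intro i j
      apply ih (fun x s t => S x (Fin.insertNth i (s j) s) (Fin.insertNth i (t j) t))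
      · exact hS.subst (PolyMap.reindex _)
          (PolyMap.insertNth i (PolyFun.coord _) (PolyMap.reindex _))
          (PolyMap.insertNth i (PolyFun.coord _) (PolyMap.reindex _))
      · apply hc.mono
        rintro x ⟨s', hs'⟩
        refine ⟨Fin.insertNth i (s' j) s', ?_⟩
        rw [comp_insertNth]
        exact hs'
    have hfin := (hAfin.union (Set.finite_iUnion (fun i : Fin (k + 1) =>
      (c.finite_toSet.biUnion (fun d _ => hB i d))))).union
      (Set.finite_iUnion (fun i : Fin (k + 1) => Set.finite_iUnion (fun j : Fin k => hC i j)))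
    refine hfin.subset ?_
    rintro x ⟨s, hs⟩
    by_cases hxA : A x
    · exact Or.inl (Or.inl hxA)
    · by_cases hinj : Function.Injective s
      · obtain ⟨i, hi⟩ := hcov s ⟨x, _, hs, hxA⟩ hinj
        left; right
        rw [Set.mem_iUnion]
        refine ⟨i, ?_⟩
        rw [Set.mem_iUnion₂]
        refine ⟨s i, hi, Fin.removeNth i s, ?_⟩
        rw [Fin.insertNth_self_removeNth]
        have := comp_insertNth f i (s i) (Fin.removeNth i s)
        rw [Fin.insertNth_self_removeNth] at this
        rw [← this]
        exact hs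
      · obtain ⟨i, j, hij⟩ := exists_merge hinj
        right
        rw [Set.mem_iUnion]
        refine ⟨i, ?_⟩
        rw [Set.mem_iUnion]
        refine ⟨j, Fin.removeNth i s, ?_⟩
        have := comp_insertNth f i (Fin.removeNth i s j) (Fin.removeNth i s)
        rw [← hij] at this
        rw [← this, ← hij]
        exact hs

/-- Countable existential subsets of the line are finite. -/
theorem IsE.finite_of_countable {f : ℝ → ℝ} (hf : Generic f) {X : Set (Unit → ℝ)}
    (h : IsE f X) (hc : X.Countable) : X.Finite := by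
  obtain ⟨k, S, hS, hX⟩ := h
  have : X = {x | ∃ s, S x s (fun i => f (s i))} := Set.ext hX
  rw [this] at hc ⊢
  exact countable_aux hf k S hS hc

end Pool.Agent.Lib.MP_ec0437_lc
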