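import Mathlib
import Pool.Agent.Lib.MP_ec0437_lc.CountableFinite

/-!
The language of ordered rings with one additional unary function symbol, and the fact that all
definable sets over a generic function are existential.
-/

set_option autoImplicit false

open Set Cardinal FirstOrder FirstOrder.Language

namespace Pool.Agent.Lib.MP_ec0437_lc

/-- Function symbols: `0, 1, -, +, *` and one extra unary symbol `fn`. -/
inductive OFunc : ℕ → Type
  | zero : OFunc 0
  | one : OFunc 0
  | neg : OFunc 1
  | add : OFunc 2
  | mul : OFunc 2
  | fn : OFunc 1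

/-- Relation symbols: the strict order. -/
inductive ORel : ℕ → Type
  | lt : ORel 2

/-- The language of ordered rings with one additional unary function symbol. -/
def Lof : FirstOrder.Language.{0, 0} := ⟨OFunc, ORel⟩

/-- A chosen function `ℝ → ℝ`. -/
class HasF where
  /-- the function interpreting the extra symbol -/
  f : ℝ → ℝ

/-- The structure on `ℝ`. -/
instance realStructure [HasF] : Lof.Structure ℝ where
  funMap := fun {n} (g : OFunc n) (v : Fin n → ℝ) =>
    match n, g, v with
    | _, .zero, _ => 0
    | _, .one, _ => 1
    | _, .neg, v => - v 0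
    | _, .add, v => v 0 + v 1
    | _, .mul, v => v 0 * v 1
    | _, .fn, v => HasF.f (v 0)
  RelMap := fun {n} (R : ORel n) (v : Fin n → ℝ) =>
    match n, R, v with
    | _, .lt, v => v 0 < v 1

variable [HasF]

theorem isE_term {β : Type} (t : Lof.Term β) :
    IsE HasF.f {w : Option β → ℝ | t.realize (fun i => w (some i)) = w none} := by
  induction t with
  | var i => exact IsE.of_SA (SA.eq (PolyFun.coord _) (PolyFun.coord _))
  | @func l g ts ih =>
    cases g with
    | zero => exact IsE.of_SA (SA.eq (PolyFun.const 0) (PolyFun.coord _))
    | one => exact IsE.of_SA (SA.eq (PolyFun.const 1) (PolyFun.coord _))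
    | neg =>
      have h1 : IsE HasF.f {w : Option β → ℝ | ∃ a, (ts 0).realize (fun i => w (some i)) = a ∧
          -a = w none} := by
        apply IsE.ex (P := fun (w : Option β → ℝ) a => (ts 0).realize (fun i => w (some i)) = a ∧
          -a = w none)
        apply IsE.and
        · exact IsE.preimage (g := fun w : Option (Option β) → ℝ => fun o : Option β =>
            Option.elim o (w none) (fun i => w (some (some i))))
            (PolyMap.optElim (PolyFun.coord _) (PolyMap.reindex _)) (ih 0)
        · exact IsE.of_SA (SA.eq (PolyFun.coord _).neg (PolyFun.coord _))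
      refine (congrArg (IsE HasF.f) ?_).mp h1
      ext w
      constructor
      · rintro ⟨a, h1, h2⟩
        change - (ts 0).realize (fun i => w (some i)) = w none
        rw [h1]; exact h2
      · intro h
        exact ⟨_, rfl, h⟩
    | fn =>
      have h1 : IsE HasF.f {w : Option β → ℝ | ∃ a, (ts 0).realize (fun i => w (some i)) = a ∧
          HasF.f a = w none} := by
        apply IsE.ex (P := fun (w : Option β → ℝ) a => (ts 0).realize (fun i => w (some i)) = a ∧
          HasF.f a = w none)
        apply IsE.and
        · exact IsE.preimage (g := fun w : Option (Option β) → ℝ => fun o : Option β =>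
            Option.elim o (w none) (fun i => w (some (some i))))
            (PolyMap.optElim (PolyFun.coord _) (PolyMap.reindex _)) (ih 0)
        · exact IsE.graph (PolyFun.coord _) (PolyFun.coord _)
      refine (congrArg (IsE HasF.f) ?_).mp h1
      ext w
      constructor
      · rintro ⟨a, h1, h2⟩
        change HasF.f ((ts 0).realize (fun i => w (some i))) = w none
        rw [h1]; exact h2
      · intro h
        exact ⟨_, rfl, h⟩
    | add =>
      have h1 : IsE HasF.f {w : Option β → ℝ | ∃ a b, ((ts 0).realize (fun i => w (some i)) = a ∧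
          (ts 1).realize (fun i => w (some i)) = b) ∧ a + b = w none} := by
        apply IsE.ex (P := fun (w : Option β → ℝ) a => ∃ b,
          ((ts 0).realize (fun i => w (some i)) = a ∧
          (ts 1).realize (fun i => w (some i)) = b) ∧ a + b = w none)
        apply IsE.ex (P := fun (w : Option (Option β) → ℝ) b =>
          ((ts 0).realize (fun i => w (some (some i))) = w none ∧
          (ts 1).realize (fun i => w (some (some i))) = b) ∧ w none + b = w (some none))
        apply IsE.and
        · apply IsE.and
          · exact IsE.preimage (g := fun w : Option (Option (Option β)) → ℝ => fun o : Option β =>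
              Option.elim o (w (some none)) (fun i => w (some (some (some i)))))
              (PolyMap.optElim (PolyFun.coord _) (PolyMap.reindex _)) (ih 0)
          · exact IsE.preimage (g := fun w : Option (Option (Option β)) → ℝ => fun o : Option β =>
              Option.elim o (w none) (fun i => w (some (some (some i)))))
              (PolyMap.optElim (PolyFun.coord _) (PolyMap.reindex _)) (ih 1)
        · exact IsE.of_SA (SA.eq ((PolyFun.coord _).add (PolyFun.coord _)) (PolyFun.coord _))
      refine (congrArg (IsE HasF.f) ?_).mp h1
      ext w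
      constructor
      · rintro ⟨a, b, ⟨h1, h2⟩, h3⟩
        change (ts 0).realize (fun i => w (some i)) + (ts 1).realize (fun i => w (some i)) = w none
        rw [h1, h2]; exact h3
      · intro h
        exact ⟨_, _, ⟨rfl, rfl⟩, h⟩
    | mul =>
      have h1 : IsE HasF.f {w : Option β → ℝ | ∃ a b, ((ts 0).realize (fun i => w (some i)) = a ∧
          (ts 1).realize (fun i => w (some i)) = b) ∧ a * b = w none} := by
        apply IsE.ex (P := fun (w : Option β → ℝ) a => ∃ b,
          ((ts 0).realize (fun i => w (some i)) = a ∧
          (ts 1).realize (fun i => w (some i)) = b) ∧ a * b = w none)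
        apply IsE.ex (P := fun (w : Option (Option β) → ℝ) b =>
          ((ts 0).realize (fun i => w (some (some i))) = w none ∧
          (ts 1).realize (fun i => w (some (some i))) = b) ∧ w none * b = w (some none))
        apply IsE.and
        · apply IsE.and
          · exact IsE.preimage (g := fun w : Option (Option (Option β)) → ℝ => fun o : Option β =>
              Option.elim o (w (some none)) (fun i => w (some (some (some i)))))
              (PolyMap.optElim (PolyFun.coord _) (PolyMap.reindex _)) (ih 0)
          · exact IsE.preimage (g := fun w : Option (Option (Option β)) → ℝ => fun o : Option β =>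
              Option.elim o (w none) (fun i => w (some (some (some i)))))
              (PolyMap.optElim (PolyFun.coord _) (PolyMap.reindex _)) (ih 1)
        · exact IsE.of_SA (SA.eq ((PolyFun.coord _).mul (PolyFun.coord _)) (PolyFun.coord _))
      refine (congrArg (IsE HasF.f) ?_).mp h1
      ext w
      constructor
      · rintro ⟨a, b, ⟨h1, h2⟩, h3⟩
        change (ts 0).realize (fun i => w (some i)) * (ts 1).realize (fun i => w (some i)) = w none
        rw [h1, h2]; exact h3
      · intro h
        exact ⟨_, _, ⟨rfl, rfl⟩, h⟩

/-- equality / order of two terms. -/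
theorem isE_two {β : Type} (t₁ t₂ : Lof.Term β) {R : ℝ → ℝ → Prop}
    (hR : ∀ {μ : Type} (i j : μ), SA {w : μ → ℝ | R (w i) (w j)}) :
    IsE HasF.f {w : β → ℝ | R (t₁.realize w) (t₂.realize w)} := by
  have h1 : IsE HasF.f {w : β → ℝ | ∃ a b, (t₁.realize w = a ∧ t₂.realize w = b) ∧ R a b} := by
    apply IsE.ex (P := fun (w : β → ℝ) a => ∃ b, (t₁.realize w = a ∧ t₂.realize w = b) ∧ R a b)
    apply IsE.ex (P := fun (w : Option β → ℝ) b => (t₁.realize (fun i => w (some i)) = w none ∧
      t₂.realize (fun i => w (some i)) = b) ∧ R (w none) b)
    apply IsE.and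
    · apply IsE.and
      · exact IsE.preimage (g := fun w : Option (Option β) → ℝ => fun o : Option β =>
          Option.elim o (w (some none)) (fun i => w (some (some i))))
          (PolyMap.optElim (PolyFun.coord _) (PolyMap.reindex _)) (isE_term t₁)
      · exact IsE.preimage (g := fun w : Option (Option β) → ℝ => fun o : Option β =>
          Option.elim o (w none) (fun i => w (some (some i))))
          (PolyMap.optElim (PolyFun.coord _) (PolyMap.reindex _)) (isE_term t₂)
    · exact IsE.of_SA (hR _ _)
  refine (congrArg (IsE HasF.f) ?_).mp h1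
  ext w
  constructor
  · rintro ⟨a, b, ⟨h1, h2⟩, h3⟩
    change R _ _
    rw [h1, h2]; exact h3
  · intro h
    exact ⟨_, _, ⟨rfl, rfl⟩, h⟩

theorem isE_formula (hf : Generic HasF.f) {β : Type} {n : ℕ} (φ : Lof.BoundedFormula β n) :
    IsE HasF.f {w : β ⊕ Fin n → ℝ |
      φ.Realize (fun i => w (Sum.inl i)) (fun i => w (Sum.inr i))} := by
  induction φ with
  | falsum => exact IsE.of_SA (SA.const False)
  | equal t₁ t₂ =>
    have h1 := isE_two t₁ t₂ (R := fun a b => a = b)
      (fun i j => SA.eq (PolyFun.coord _) (PolyFun.coord _))
    refine (congrArg (IsE HasF.f) ?_).mp h1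
    ext w
    have : (Sum.elim (fun i => w (Sum.inl i)) (fun i => w (Sum.inr i))) = w := by
      funext i; cases i <;> rfl
    change t₁.realize w = t₂.realize w ↔
      t₁.realize (Sum.elim (fun i => w (Sum.inl i)) (fun i => w (Sum.inr i))) =
      t₂.realize (Sum.elim (fun i => w (Sum.inl i)) (fun i => w (Sum.inr i)))
    rw [this]
  | @rel n l R ts =>
    cases R with
    | lt =>
      have h1 := isE_two (ts 0) (ts 1) (R := fun a b => a < b)
        (fun i j => SA.lt (PolyFun.coord _) (PolyFun.coord _))
      refine (congrArg (IsE HasF.f) ?_).mp h1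
      ext w
      have : (Sum.elim (fun i => w (Sum.inl i)) (fun i => w (Sum.inr i))) = w := by
        funext i; cases i <;> rfl
      change (ts 0).realize w < (ts 1).realize w ↔
        (ts 0).realize (Sum.elim (fun i => w (Sum.inl i)) (fun i => w (Sum.inr i))) <
        (ts 1).realize (Sum.elim (fun i => w (Sum.inl i)) (fun i => w (Sum.inr i)))
      rw [this]
  | imp φ ψ ih1 ih2 =>
    have h1 := (IsE.not hf ih1).or ih2
    refine (congrArg (IsE HasF.f) ?_).mp h1
    ext w
    exact imp_iff_not_or.symm
  | @all n φ ih =>
    apply IsE.all hf (P := fun (w : β ⊕ Fin n → ℝ) a =>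
      φ.Realize (fun i => w (Sum.inl i)) (Fin.snoc (fun i => w (Sum.inr i)) a))
    have := IsE.preimage (g := fun w : Option (β ⊕ Fin n) → ℝ =>
      (Sum.elim (fun i => w (some (Sum.inl i)))
        (Fin.snoc (fun i => w (some (Sum.inr i))) (w none) : Fin (n + 1) → ℝ)))
      (by
        rintro (i | i)
        · exact PolyFun.coord _
        · refine Fin.lastCases ?_ (fun j => ?_) i
          · simpa using! PolyFun.coord none
          · simpa using! PolyFun.coord (some (Sum.inr j))) ih
    exact this

/-- All definable sets are existential. -/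
theorem isE_of_definable (hf : Generic HasF.f) {α : Type} {X : Set (α → ℝ)}
    (h : (Set.univ : Set ℝ).Definable Lof X) : IsE HasF.f X := by
  rw [definable_iff_exists_formula_sum] at h
  obtain ⟨φ, rfl⟩ := h
  have h1 := isE_formula hf φ
  have := IsE.preimage (g := fun v : α → ℝ =>
    Sum.elim (Sum.elim (fun a : (Set.univ : Set ℝ) => (a : ℝ)) v) (Fin.elim0 : Fin 0 → ℝ))
    (by
      rintro ((a | i) | i)
      · exact PolyFun.const _
      · exact PolyFun.coord _
      · exact i.elim0) h1
  refine (congrArg (IsE HasF.f) ?_).mp this
  ext v
  have h2 : (fun i : Fin 0 => (Sum.elim (Sum.elim (fun a : (Set.univ : Set ℝ) => (a : ℝ)) v)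
    (Fin.elim0 : Fin 0 → ℝ)) (Sum.inr i)) = default := Subsingleton.elim _ _
  have h3 : (fun i => (Sum.elim (Sum.elim (fun a : (Set.univ : Set ℝ) => (a : ℝ)) v)
    (Fin.elim0 : Fin 0 → ℝ)) (Sum.inl i)) = Sum.elim (fun a : (Set.univ : Set ℝ) => (a : ℝ)) v :=
    rfl
  simp only [Set.mem_ofPred_eq, Formula.Realize]
  rw [h2, h3]
  apply iff_of_eq
  congr 1
  exact Subsingleton.elim _ _

end Pool.Agent.Lib.MP_ec0437_lc
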